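import Mathlib

set_option autoImplicit false

open Complex MeasureTheory
open scoped Pointwise ComplexConjugate

noncomputable section

namespace Pool.Agent.H421Bohr

/-- the character `θ ↦ e^{imθ}` -/
def chr (m : ℤ) (θ : ℝ) : ℂ := Complex.exp (((m : ℝ) * θ : ℝ) * I)

/-- trigonometric polynomials with frequencies in `S` -/
def TP (S : Set ℤ) : Submodule ℂ (ℝ → ℂ) := Submodule.span ℂ (chr '' S)

/-- one-sided Fejér kernel `∑_{1 ≤ j < N} (1 - j/N) e^{ijφ}` -/
def G (N : ℕ) (φ : ℝ) : ℂ :=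
  ∑ j ∈ Finset.Ico 1 N, ((1 - (j : ℝ) / N : ℝ) : ℂ) * chr (j : ℤ) φ



lemma TP_mono {S T : Set ℤ} (h : S ⊆ T) : TP S ≤ TP T :=
  Submodule.span_mono (Set.image_mono h)

lemma chr_mem {S : Set ℤ} {m : ℤ} (h : m ∈ S) : chr m ∈ TP S :=
  Submodule.subset_span ⟨m, h, rfl⟩

lemma chr_add' (m k : ℤ) (θ : ℝ) : chr m θ * chr k θ = chr (m + k) θ := by
  unfold chr
  rw [← Complex.exp_add]
  congr 1
  push_cast
  ring

lemma chr_cont (m : ℤ) : Continuous (chr m) := by
  unfold chr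
  fun_prop

lemma TP_mul {a b c d : ℤ} {f g : ℝ → ℂ} (hf : f ∈ TP (Set.Icc a b)) (hg : g ∈ TP (Set.Icc c d)) :
    (fun θ => f θ * g θ) ∈ TP (Set.Icc (a + c) (b + d)) := by
  unfold TP at hf
  induction hf using Submodule.span_induction with
  | mem x hx =>
    obtain ⟨m, hm, rfl⟩ := hx
    unfold TP at hg
    induction hg using Submodule.span_induction with
    | mem y hy =>
      obtain ⟨k, hk, rfl⟩ := hy
      have : (fun θ => chr m θ * chr k θ) = chr (m + k) := funext fun θ => chr_add' m k θ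
      rw [this]
      apply chr_mem
      rw [Set.mem_Icc] at hm hk ⊢
      constructor <;> linarith [hm.1, hm.2, hk.1, hk.2]
    | zero =>
      have : (fun θ => chr m θ * (0 : ℝ → ℂ) θ) = 0 := by
        funext θ; simp
      rw [this]; exact Submodule.zero_mem _
    | add x y _ _ hx hy =>
      have : (fun θ => chr m θ * (x + y) θ) = (fun θ => chr m θ * x θ) + fun θ => chr m θ * y θ := by
        funext θ; simp [mul_add]
      rw [this]; exact Submodule.add_mem _ hx hy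
    | smul r x _ hx =>
      have : (fun θ => chr m θ * (r • x) θ) = r • fun θ => chr m θ * x θ := by
        funext θ; simp; ring
      rw [this]; exact Submodule.smul_mem _ _ hx
  | zero =>
    have : (fun θ => (0 : ℝ → ℂ) θ * g θ) = 0 := by
      funext θ; simp
    rw [this]; exact Submodule.zero_mem _
  | add x y _ _ hx hy =>
    have : (fun θ => (x + y) θ * g θ) = (fun θ => x θ * g θ) + fun θ => y θ * g θ := by
      funext θ; simp [add_mul]
    rw [this]; exact Submodule.add_mem _ hx hy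
  | smul r x _ hx =>
    have : (fun θ => (r • x) θ * g θ) = r • fun θ => x θ * g θ := by
      funext θ; simp; ring
    rw [this]; exact Submodule.smul_mem _ _ hx

lemma TP_conj {a b : ℤ} {f : ℝ → ℂ} (hf : f ∈ TP (Set.Icc a b)) :
    (fun θ => conj (f θ)) ∈ TP (Set.Icc (-b) (-a)) := by
  unfold TP at hf
  induction hf using Submodule.span_induction with
  | mem x hx =>
    obtain ⟨m, hm, rfl⟩ := hx
    have : (fun θ => conj (chr m θ)) = chr (-m) := by
      funext θ
      unfold chr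
      rw [← Complex.exp_conj]
      congr 1
      simp
    rw [this]
    apply chr_mem
    rw [Set.mem_Icc] at hm ⊢
    constructor <;> linarith [hm.1, hm.2]
  | zero =>
    have : (fun θ => conj ((0 : ℝ → ℂ) θ)) = 0 := by
      funext θ; simp
    rw [this]; exact Submodule.zero_mem _
  | add x y _ _ hx hy =>
    have : (fun θ => conj ((x + y) θ)) = (fun θ => conj (x θ)) + fun θ => conj (y θ) := by
      funext θ; simp
    rw [this]; exact Submodule.add_mem _ hx hy
  | smul r x _ hx =>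
    have : (fun θ => conj ((r • x) θ)) = (conj r) • fun θ => conj (x θ) := by
      funext θ; simp
    rw [this]; exact Submodule.smul_mem _ _ hx

lemma TP_cont {S : Set ℤ} {f : ℝ → ℂ} (hf : f ∈ TP S) : Continuous f := by
  unfold TP at hf
  induction hf using Submodule.span_induction with
  | mem x hx =>
    obtain ⟨m, hm, rfl⟩ := hx
    exact chr_cont m
  | zero => exact continuous_const
  | add x y _ _ hx hy => exact hx.add hy
  | smul r x _ hx => exact hx.const_smul r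

lemma TP_const (z : ℂ) : (fun _ : ℝ => z) ∈ TP (Set.Icc 0 0) := by
  have : (fun _ : ℝ => z) = z • chr 0 := by
    funext θ
    simp [chr]
  rw [this]
  exact Submodule.smul_mem _ _ (chr_mem (by simp))

lemma chr_int {m : ℤ} (hm : m ≠ 0) : ∫ θ in (0:ℝ)..(2 * Real.pi), chr m θ = 0 := by
  have hc : ((m : ℂ) * I) ≠ 0 := mul_ne_zero (by exact_mod_cast hm) I_ne_zero
  have h1 : (fun θ : ℝ => chr m θ) = fun θ : ℝ => Complex.exp (((m : ℂ) * I) * θ) := by
    funext θ
    unfold chr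
    congr 1
    push_cast
    ring
  rw [h1, integral_exp_mul_complex hc]
  have h2 : Complex.exp ((m : ℂ) * I * ((2 * Real.pi : ℝ) : ℂ)) = 1 := by
    rw [Complex.exp_eq_one_iff]
    exact ⟨m, by push_cast; ring⟩
  rw [h2]
  simp

lemma TP_int_zero {a b : ℤ} {f : ℝ → ℂ} (hf : f ∈ TP (Set.Icc a b)) (h : 0 < a ∨ b < 0) :
    ∫ θ in (0:ℝ)..(2 * Real.pi), f θ = 0 := by
  unfold TP at hf
  induction hf using Submodule.span_induction with
  | mem x hx =>
    obtain ⟨m, hm, rfl⟩ := hx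
    apply chr_int
    rintro rfl
    rw [Set.mem_Icc] at hm
    rcases h with h | h <;> linarith [hm.1, hm.2]
  | zero => simp
  | add x y hx' hy' hx hy =>
    have h1 := (TP_cont hx').intervalIntegrable (μ := volume) 0 (2 * Real.pi)
    have h2 := (TP_cont hy').intervalIntegrable (μ := volume) 0 (2 * Real.pi)
    have := intervalIntegral.integral_add h1 h2
    simp only [Pi.add_apply]
    rw [this, hx, hy, add_zero]
  | smul r x _ hx =>
    simp only [Pi.smul_apply]
    rw [intervalIntegral.integral_smul, hx, smul_zero]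

/-- dilates of the kernel: `θ ↦ G N (a θ)` has frequencies in `[a, N a]` -/
lemma TP_G (N a : ℕ) : (fun θ : ℝ => G N ((a : ℝ) * θ)) ∈ TP (Set.Icc (a : ℤ) ((N : ℤ) * a)) := by
  have h1 : (fun θ : ℝ => G N ((a : ℝ) * θ)) =
      ∑ j ∈ Finset.Ico 1 N, ((1 - (j : ℝ) / N : ℝ) : ℂ) • chr ((j : ℤ) * a) := by
    funext θ
    unfold G
    rw [Finset.sum_apply]
    apply Finset.sum_congr rfl
    intro j _
    rw [Pi.smul_apply, smul_eq_mul]
    congr 1
    unfold chr
    congr 1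
    push_cast
    ring
  rw [h1]
  apply Submodule.sum_mem
  intro j hj
  apply Submodule.smul_mem
  apply chr_mem
  rw [Finset.mem_Ico] at hj
  rw [Set.mem_Icc]
  constructor
  · have : (1 : ℤ) * a ≤ (j : ℤ) * a :=
      mul_le_mul_of_nonneg_right (by exact_mod_cast hj.1) (by positivity)
    linarith
  · exact mul_le_mul_of_nonneg_right (by exact_mod_cast hj.2.le) (by positivity)




theorem j8794_chr_cont (m : ℤ) : Continuous (chr m) := by
  unfold chr
  fun_prop

theorem j8794_chr_add (m : ℤ) (x y : ℝ) : chr m (x + y) = chr m x * chr m y := by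
  unfold chr
  rw [← Complex.exp_add]
  congr 1
  push_cast
  ring

theorem j8794_chr_two_pi (m : ℤ) : chr m (2 * Real.pi) = 1 := by
  unfold chr
  rw [Complex.exp_eq_one_iff]
  refine ⟨m, ?_⟩
  push_cast
  ring

theorem j8794_chr_ne (m : ℤ) (a : ℕ) (hm : m ≠ 0) (hma : |m| < (a : ℤ)) (ha : 0 < a) :
    chr m (2 * Real.pi / a) ≠ 1 := by
  intro h
  unfold chr at h
  rw [Complex.exp_eq_one_iff] at h
  obtain ⟨n, hn⟩ := h
  have ha' : (a : ℂ) ≠ 0 := by exact_mod_cast ha.ne'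
  have hpi : (2 * (Real.pi : ℂ) * I) ≠ 0 := by
    have : (Real.pi : ℂ) ≠ 0 := by exact_mod_cast Real.pi_ne_zero
    simp [this, Complex.I_ne_zero]
  have h1 : (m : ℂ) * (2 * (Real.pi : ℂ) * I) = ((n : ℂ) * a) * (2 * (Real.pi : ℂ) * I) := by
    have h2 : (((m : ℝ) * (2 * Real.pi / a) : ℝ) : ℂ) * I * a = (m : ℂ) * (2 * (Real.pi : ℂ) * I) := by
      push_cast
      field_simp
    rw [← h2, hn]
    ring
  have h3 : (m : ℂ) = (n : ℂ) * a := mul_right_cancel₀ hpi h1
  have h4 : m = n * (a : ℤ) := by exact_mod_cast h3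
  have hn0 : n ≠ 0 := by
    rintro rfl
    apply hm
    rw [h4, zero_mul]
  rw [h4, abs_mul, Nat.abs_cast] at hma
  have h5 : 1 ≤ |n| := Int.one_le_abs hn0
  have h6 : (0 : ℤ) < a := by exact_mod_cast ha
  nlinarith

theorem j8794_zero (m : ℤ) (a : ℕ) (hm : m ≠ 0) (hma : |m| < (a : ℤ)) (ha : 0 < a) {ψ : ℝ → ℂ}
    (hper : Function.Periodic ψ (2 * Real.pi)) :
    ∫ θ in (0:ℝ)..(2 * Real.pi), chr m θ * ψ ((a : ℝ) * θ) = 0 := by
  have ha' : (a : ℝ) ≠ 0 := by exact_mod_cast ha.ne'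
  have hg1 : Function.Periodic (fun θ : ℝ => chr m θ * ψ ((a : ℝ) * θ)) (2 * Real.pi) := by
    intro θ
    show chr m (θ + 2 * Real.pi) * ψ ((a : ℝ) * (θ + 2 * Real.pi)) = chr m θ * ψ ((a : ℝ) * θ)
    rw [j8794_chr_add, j8794_chr_two_pi, mul_one, mul_add, hper.nat_mul a]
  have hg2 : ∀ θ : ℝ, chr m (θ + 2 * Real.pi / a) * ψ ((a : ℝ) * (θ + 2 * Real.pi / a)) =
      chr m (2 * Real.pi / a) * (chr m θ * ψ ((a : ℝ) * θ)) := by
    intro θ
    have e : (a : ℝ) * (θ + 2 * Real.pi / a) = (a : ℝ) * θ + 2 * Real.pi := by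
      field_simp
    rw [j8794_chr_add, e, hper]
    ring
  have h1 : ∫ θ in (0:ℝ)..(2 * Real.pi), chr m (θ + 2 * Real.pi / a) * ψ ((a : ℝ) * (θ + 2 * Real.pi / a)) =
      ∫ θ in (0:ℝ)..(2 * Real.pi), chr m θ * ψ ((a : ℝ) * θ) := by
    rw [intervalIntegral.integral_comp_add_right (fun θ : ℝ => chr m θ * ψ ((a : ℝ) * θ))]
    have := hg1.intervalIntegral_add_eq (2 * Real.pi / a) 0
    rw [zero_add, add_comm (2 * Real.pi / a)] at this
    rw [zero_add]
    exact this
  have h2 : ∫ θ in (0:ℝ)..(2 * Real.pi), chr m (θ + 2 * Real.pi / a) * ψ ((a : ℝ) * (θ + 2 * Real.pi / a)) =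
      chr m (2 * Real.pi / a) * ∫ θ in (0:ℝ)..(2 * Real.pi), chr m θ * ψ ((a : ℝ) * θ) := by
    rw [← intervalIntegral.integral_const_mul]
    exact intervalIntegral.integral_congr (fun θ _ => hg2 θ)
  rw [h1] at h2
  by_contra hI
  have h3 : (chr m (2 * Real.pi / a) - 1) * ∫ θ in (0:ℝ)..(2 * Real.pi), chr m θ * ψ ((a : ℝ) * θ) = 0 := by
    rw [sub_mul, one_mul, ← h2, sub_self]
  rcases mul_eq_zero.1 h3 with h4 | h4
  · exact j8794_chr_ne m a hm hma ha (sub_eq_zero.1 h4)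
  · exact hI h4

theorem j8794_const (a : ℕ) (ha : 0 < a) {ψ : ℝ → ℂ} (hψ : Continuous ψ)
    (hper : Function.Periodic ψ (2 * Real.pi)) :
    ∫ θ in (0:ℝ)..(2 * Real.pi), ψ ((a : ℝ) * θ) = ∫ θ in (0:ℝ)..(2 * Real.pi), ψ θ := by
  have ha' : (a : ℝ) ≠ 0 := by exact_mod_cast ha.ne'
  have hac : (a : ℂ) ≠ 0 := by exact_mod_cast ha.ne'
  rw [intervalIntegral.integral_comp_mul_left ψ ha', mul_zero]
  have hint : ∀ t₁ t₂ : ℝ, IntervalIntegrable ψ volume t₁ t₂ := fun t₁ t₂ => hψ.intervalIntegrable t₁ t₂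
  have h1 := hper.intervalIntegral_add_zsmul_eq (a : ℤ) 0 hint
  rw [zero_add, zsmul_eq_mul, Int.cast_natCast] at h1
  rw [h1, zsmul_eq_mul, zero_add]
  rw [Complex.real_smul]
  push_cast
  field_simp

theorem j8794_chr_int (m : ℤ) (a : ℕ) (hma : |m| < (a : ℤ)) (ha : 0 < a) {ψ : ℝ → ℂ} (hψ : Continuous ψ)
    (hper : Function.Periodic ψ (2 * Real.pi)) :
    ∫ θ in (0:ℝ)..(2 * Real.pi), chr m θ * ψ ((a : ℝ) * θ) =
      ((2 * Real.pi : ℝ) : ℂ)⁻¹ * (∫ θ in (0:ℝ)..(2 * Real.pi), chr m θ) *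
        (∫ θ in (0:ℝ)..(2 * Real.pi), ψ θ) := by
  by_cases hm : m = 0
  · subst hm
    have e : ∀ θ, chr 0 θ = 1 := fun θ => by unfold chr; simp
    simp_rw [e, one_mul]
    rw [j8794_const a ha hψ hper, intervalIntegral.integral_const, sub_zero, Complex.real_smul, mul_one,
      inv_mul_cancel₀, one_mul]
    exact_mod_cast (by positivity : (2 * Real.pi) ≠ 0)
  · rw [j8794_zero m a hm hma ha hper]
    have h := j8794_zero m a hm hma ha (ψ := fun _ => 1) (fun _ => rfl)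
    simp_rw [mul_one] at h
    rw [h, mul_zero, zero_mul]

/-- If `μ` is a trigonometric polynomial of degree `< a` and `ψ` is continuous and `2π`-periodic,
then `θ ↦ aθ` is equidistributed under `μ`. -/
lemma equi {d : ℤ} {a : ℕ} {μ : ℝ → ℂ} (hμ : μ ∈ TP (Set.Icc (-d) d)) (hd : d < (a : ℤ))
    (ha : 0 < a) {ψ : ℝ → ℂ} (hψ : Continuous ψ) (hper : Function.Periodic ψ (2 * Real.pi)) :
    ∫ θ in (0:ℝ)..(2 * Real.pi), μ θ * ψ ((a : ℝ) * θ) =
      ((2 * Real.pi : ℝ) : ℂ)⁻¹ * (∫ θ in (0:ℝ)..(2 * Real.pi), μ θ) *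
        (∫ θ in (0:ℝ)..(2 * Real.pi), ψ θ) := by
  have key : Continuous μ ∧ ∫ θ in (0:ℝ)..(2 * Real.pi), μ θ * ψ ((a : ℝ) * θ) =
      ((2 * Real.pi : ℝ) : ℂ)⁻¹ * (∫ θ in (0:ℝ)..(2 * Real.pi), μ θ) *
        (∫ θ in (0:ℝ)..(2 * Real.pi), ψ θ) := by
    have hψa : Continuous (fun θ : ℝ => ψ ((a : ℝ) * θ)) := by fun_prop
    unfold TP at hμ
    induction hμ using Submodule.span_induction with
    | mem x hx =>
      obtain ⟨m, hm, rfl⟩ := hx
      refine ⟨j8794_chr_cont m, j8794_chr_int m a ?_ ha hψ hper⟩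
      have := abs_le.2 ⟨hm.1, hm.2⟩
      omega
    | zero =>
      refine ⟨continuous_zero, ?_⟩
      simp
    | add x y _ _ hx hy =>
      refine ⟨hx.1.add hy.1, ?_⟩
      have i1 : IntervalIntegrable (fun θ => x θ * ψ ((a : ℝ) * θ)) volume 0 (2 * Real.pi) :=
        (hx.1.mul hψa).intervalIntegrable _ _
      have i2 : IntervalIntegrable (fun θ => y θ * ψ ((a : ℝ) * θ)) volume 0 (2 * Real.pi) :=
        (hy.1.mul hψa).intervalIntegrable _ _
      have e1 : ∫ θ in (0:ℝ)..(2 * Real.pi), (x + y) θ * ψ ((a : ℝ) * θ) =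
          (∫ θ in (0:ℝ)..(2 * Real.pi), x θ * ψ ((a : ℝ) * θ)) +
          ∫ θ in (0:ℝ)..(2 * Real.pi), y θ * ψ ((a : ℝ) * θ) := by
        rw [← intervalIntegral.integral_add i1 i2]
        apply intervalIntegral.integral_congr
        intro θ _
        show (x θ + y θ) * _ = _
        rw [add_mul]
      have e2 : ∫ θ in (0:ℝ)..(2 * Real.pi), (x + y) θ =
          (∫ θ in (0:ℝ)..(2 * Real.pi), x θ) + ∫ θ in (0:ℝ)..(2 * Real.pi), y θ := by
        rw [← intervalIntegral.integral_add (hx.1.intervalIntegrable _ _) (hy.1.intervalIntegrable _ _)]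
        rfl
      rw [e1, e2, hx.2, hy.2]
      ring
    | smul c x _ hx =>
      refine ⟨hx.1.const_smul c, ?_⟩
      have e1 : ∫ θ in (0:ℝ)..(2 * Real.pi), (c • x) θ * ψ ((a : ℝ) * θ) =
          c * ∫ θ in (0:ℝ)..(2 * Real.pi), x θ * ψ ((a : ℝ) * θ) := by
        rw [← intervalIntegral.integral_const_mul]
        apply intervalIntegral.integral_congr
        intro θ _
        show (c * x θ) * _ = _
        rw [mul_assoc]
      have e2 : ∫ θ in (0:ℝ)..(2 * Real.pi), (c • x) θ = c * ∫ θ in (0:ℝ)..(2 * Real.pi), x θ := by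
        rw [← intervalIntegral.integral_const_mul]
        rfl
      rw [e1, e2, hx.2]
      ring
  exact key.2




lemma chr_natCast (j : ℕ) (φ : ℝ) : chr (j : ℤ) φ = (chr 1 φ) ^ j := by
  simp only [chr]
  rw [← Complex.exp_nat_mul]
  congr 1
  push_cast
  ring

lemma norm_chr (m : ℤ) (φ : ℝ) : ‖chr m φ‖ = 1 := by
  simp only [chr]
  exact Complex.norm_exp_ofReal_mul_I _

lemma G_eq_pow (N : ℕ) (φ : ℝ) :
    G N φ = ∑ j ∈ Finset.Ico 1 N, ((1 - (j : ℝ) / N : ℝ) : ℂ) * (chr 1 φ) ^ j := by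
  simp only [G, chr_natCast]

/-- `∑_{1 ≤ j < n} (n - j) z^j` -/
def PP (z : ℂ) (n : ℕ) : ℂ := ∑ j ∈ Finset.Ico 1 n, ((n : ℂ) - j) * z ^ j

/-- `∑_{1 ≤ j ≤ n} z^j` -/
def TT (z : ℂ) (n : ℕ) : ℂ := ∑ j ∈ Finset.Ico 1 (n + 1), z ^ j

lemma TT_eq (z : ℂ) (n : ℕ) : TT z n = ∑ l ∈ Finset.range n, z ^ (l + 1) := by
  rw [TT, Finset.sum_Ico_eq_sum_range]
  refine Finset.sum_congr (by simp) fun l _ => by rw [add_comm]

lemma PP_succ (z : ℂ) (n : ℕ) : PP z (n + 1) = PP z n + TT z n := by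
  rcases Nat.eq_zero_or_pos n with h | h
  · subst h; simp [PP, TT]
  · have h1 : PP z n = ∑ j ∈ Finset.Ico 1 (n + 1), ((n : ℂ) - j) * z ^ j := by
      rw [Finset.sum_Ico_succ_top h]
      simp [PP]
    rw [h1, TT, ← Finset.sum_add_distrib, PP]
    refine Finset.sum_congr rfl fun j _ => ?_
    push_cast
    ring

lemma TT_succ (z : ℂ) (n : ℕ) : TT z (n + 1) = z + z * TT z n := by
  rw [TT_eq, TT_eq, Finset.sum_range_succ', Finset.mul_sum, add_comm]
  congr 1
  · ring
  · refine Finset.sum_congr rfl fun j _ => ?_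
    ring

lemma one_sub_mul_PP (z : ℂ) (n : ℕ) : (1 - z) * PP z n = n * z - TT z n := by
  induction n with
  | zero => simp [PP, TT]
  | succ n ih =>
    rw [PP_succ, mul_add, ih, TT_succ]
    push_cast
    ring

lemma conj_sum_mul (z : ℂ) (hz : ‖z‖ = 1) (n : ℕ) :
    conj (∑ l ∈ Finset.range n, z ^ l) * z ^ n = TT z n := by
  have hzz : conj z * z = 1 := by
    rw [Complex.conj_mul', hz]; norm_num
  induction n with
  | zero => simp [TT]
  | succ n ih =>
    rw [Finset.sum_range_succ, map_add, add_mul, TT_succ, ← ih]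
    rw [pow_succ z n]
    have : conj (z ^ n) * (z ^ n * z) = z := by
      rw [← mul_assoc, map_pow, ← mul_pow, hzz]; simp
    rw [this]
    ring

lemma norm_sq_sum (z : ℂ) (hz : ‖z‖ = 1) (n : ℕ) :
    ‖∑ l ∈ Finset.range n, z ^ l‖ ^ 2 = n + 2 * (PP z n).re := by
  induction n with
  | zero => simp [PP]
  | succ n ih =>
    rw [Finset.sum_range_succ, PP_succ, ← conj_sum_mul z hz n]
    have h1 : ∀ a b : ℂ, ‖a + b‖ ^ 2 = ‖a‖ ^ 2 + ‖b‖ ^ 2 + 2 * (conj a * b).re := by
      intro a b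
      rw [← Complex.normSq_eq_norm_sq, ← Complex.normSq_eq_norm_sq, ← Complex.normSq_eq_norm_sq]
      simp only [Complex.normSq_apply, Complex.add_re, Complex.add_im, Complex.mul_re,
        Complex.conj_re, Complex.conj_im]
      ring
    rw [h1, ih, norm_pow, hz, Complex.add_re]
    push_cast
    ring

lemma G_eq_PP (N : ℕ) (hN : 0 < N) (φ : ℝ) : (N : ℂ) * G N φ = PP (chr 1 φ) N := by
  have hN' : (N : ℂ) ≠ 0 := by exact_mod_cast hN.ne'
  rw [G_eq_pow, PP, Finset.mul_sum]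
  refine Finset.sum_congr rfl fun j _ => ?_
  push_cast
  field_simp

lemma G_re_eq (N : ℕ) (hN : 0 < N) (φ : ℝ) :
    (1 / 2 : ℝ) + (G N φ).re = ‖∑ l ∈ Finset.range N, chr (l : ℤ) φ‖ ^ 2 / (2 * N) := by
  have hN' : (0 : ℝ) < N := by exact_mod_cast hN
  have h1 := norm_sq_sum (chr 1 φ) (norm_chr 1 φ) N
  rw [← G_eq_PP N hN φ] at h1
  have h2 : ((N : ℂ) * G N φ).re = N * (G N φ).re := by
    rw [← Complex.ofReal_natCast, Complex.re_ofReal_mul]
  rw [h2] at h1
  simp only [chr_natCast]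
  rw [h1]
  field_simp

lemma G_re_nonneg (N : ℕ) (hN : 0 < N) (φ : ℝ) : 0 ≤ (1 / 2 : ℝ) + (G N φ).re := by
  rw [G_re_eq N hN]
  positivity

lemma sum_weights (N : ℕ) (hN : 0 < N) :
    ∑ j ∈ Finset.Ico 1 N, (1 - (j : ℝ) / N) = ((N : ℝ) - 1) / 2 := by
  have hN' : (0 : ℝ) < N := by exact_mod_cast hN
  have key : ∀ n : ℕ, ∑ j ∈ Finset.Ico 1 (n + 1), (((n : ℝ) + 1) - j) = ((n : ℝ) + 1) * n / 2 := by
    intro n
    induction n with
    | zero => simp
    | succ n ih =>
      rw [Finset.sum_Ico_succ_top (by omega)]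
      have : ∑ j ∈ Finset.Ico 1 (n + 1), ((((n + 1 : ℕ) : ℝ) + 1) - (j : ℝ))
          = ∑ j ∈ Finset.Ico 1 (n + 1), (((n : ℝ) + 1) - j) + n := by
        have h3 : ∑ j ∈ Finset.Ico 1 (n + 1), (1 : ℝ) = n := by simp
        calc ∑ j ∈ Finset.Ico 1 (n + 1), ((((n + 1 : ℕ) : ℝ) + 1) - (j : ℝ))
            = ∑ j ∈ Finset.Ico 1 (n + 1), ((((n : ℝ) + 1) - j) + 1) := by
              refine Finset.sum_congr rfl fun j _ => ?_
              push_cast
              ring
          _ = ∑ j ∈ Finset.Ico 1 (n + 1), (((n : ℝ) + 1) - j) + n := by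
              rw [Finset.sum_add_distrib, h3]
      rw [this, ih]
      push_cast
      ring
  obtain ⟨n, rfl⟩ : ∃ n, N = n + 1 := ⟨N - 1, by omega⟩
  have h1 := key n
  have h2 : ∑ j ∈ Finset.Ico 1 (n + 1), (1 - (j : ℝ) / ((n + 1 : ℕ) : ℝ))
      = (∑ j ∈ Finset.Ico 1 (n + 1), (((n : ℝ) + 1) - j)) / ((n : ℝ) + 1) := by
    rw [Finset.sum_div]
    refine Finset.sum_congr rfl fun j _ => ?_
    push_cast
    field_simp
  rw [h2, h1]
  push_cast
  field_simp
  ring

lemma G_norm_le' (N : ℕ) (hN : 0 < N) (φ : ℝ) : ‖G N φ‖ ≤ ((N : ℝ) - 1) / 2 := by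
  have hN' : (0 : ℝ) < N := by exact_mod_cast hN
  rw [← sum_weights N hN, G]
  refine (norm_sum_le _ _).trans (Finset.sum_le_sum fun j hj => ?_)
  rw [norm_mul, norm_chr, mul_one, Complex.norm_real, Real.norm_eq_abs, abs_of_nonneg]
  have : (j : ℝ) ≤ N := by exact_mod_cast (Finset.mem_Ico.mp hj).2.le
  have : (j : ℝ) / N ≤ 1 := (div_le_one hN').2 this
  linarith

lemma G_norm_le (N : ℕ) (hN : 0 < N) (φ : ℝ) : ‖G N φ‖ ≤ (N : ℝ) / 2 := by
  have := G_norm_le' N hN φ
  linarith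

lemma half_add_G_norm_le (N : ℕ) (hN : 0 < N) (φ : ℝ) : ‖(1 / 2 : ℂ) + G N φ‖ ≤ (N : ℝ) / 2 := by
  have h1 := G_norm_le' N hN φ
  have h2 := norm_add_le (1 / 2 : ℂ) (G N φ)
  have h3 : ‖(1 / 2 : ℂ)‖ = 1 / 2 := by norm_num
  rw [h3] at h2
  linarith

lemma norm_one_sub_chr {φ : ℝ} (h : φ ∈ Set.Ioo (0:ℝ) (2 * Real.pi)) :
    ‖1 - chr 1 φ‖ = 2 * Real.sin (φ / 2) ∧ 0 < Real.sin (φ / 2) := by
  have hpos : 0 < Real.sin (φ / 2) :=
    Real.sin_pos_of_pos_of_lt_pi (by linarith [h.1]) (by linarith [h.2])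
  refine ⟨?_, hpos⟩
  rw [norm_sub_rev]
  have h1 : chr 1 φ = Complex.exp (I * φ) := by
    simp only [chr]
    congr 1
    push_cast
    ring
  rw [h1, Complex.norm_exp_I_mul_ofReal_sub_one, Real.norm_eq_abs, abs_of_pos (by linarith)]

lemma G_re_le (N : ℕ) (hN : 0 < N) {φ : ℝ} (h : φ ∈ Set.Ioo (0:ℝ) (2 * Real.pi)) :
    (1 / 2 : ℝ) + (G N φ).re ≤ 1 / (2 * N * Real.sin (φ / 2) ^ 2) := by
  have hN' : (0 : ℝ) < N := by exact_mod_cast hN
  obtain ⟨h1, h2⟩ := norm_one_sub_chr h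
  rw [G_re_eq N hN]
  simp only [chr_natCast]
  set z := chr 1 φ with hz
  have hz1 : ‖z‖ = 1 := norm_chr 1 φ
  have h3 : ‖∑ l ∈ Finset.range N, z ^ l‖ * ‖1 - z‖ ≤ 2 := by
    rw [← norm_mul, geom_sum_mul_neg]
    refine (norm_sub_le _ _).trans ?_
    rw [norm_pow, hz1]
    norm_num
  rw [h1] at h3
  have h4 : ‖∑ l ∈ Finset.range N, z ^ l‖ ≤ 1 / Real.sin (φ / 2) := by
    rw [le_div_iff₀ h2]
    linarith
  have h5 : ‖∑ l ∈ Finset.range N, z ^ l‖ ^ 2 ≤ 1 / Real.sin (φ / 2) ^ 2 := by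
    calc _ ≤ (1 / Real.sin (φ / 2)) ^ 2 := by gcongr
      _ = _ := by rw [div_pow, one_pow]
  calc ‖∑ l ∈ Finset.range N, z ^ l‖ ^ 2 / (2 * N) ≤ (1 / Real.sin (φ / 2) ^ 2) / (2 * N) := by
        gcongr
    _ = _ := by
        field_simp

lemma TT_norm_le (z : ℂ) (hz : ‖z‖ = 1) (n : ℕ) : ‖TT z n‖ ≤ n := by
  rw [TT_eq]
  refine (norm_sum_le _ _).trans ?_
  simp [norm_pow, hz]

lemma G_norm_le_sin (N : ℕ) (hN : 0 < N) {φ : ℝ} (h : φ ∈ Set.Ioo (0:ℝ) (2 * Real.pi)) :
    ‖G N φ‖ ≤ 1 / Real.sin (φ / 2) := by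
  have hN' : (0 : ℝ) < N := by exact_mod_cast hN
  obtain ⟨h1, h2⟩ := norm_one_sub_chr h
  have h3 := one_sub_mul_PP (chr 1 φ) N
  rw [← G_eq_PP N hN φ] at h3
  have h4 : ‖(1 - chr 1 φ) * ((N : ℂ) * G N φ)‖ ≤ 2 * N := by
    rw [h3]
    refine (norm_sub_le _ _).trans ?_
    rw [norm_mul, norm_chr, Complex.norm_natCast, mul_one]
    have := TT_norm_le (chr 1 φ) (norm_chr 1 φ) N
    linarith
  rw [norm_mul, norm_mul, h1, Complex.norm_natCast] at h4
  rw [le_div_iff₀ h2]
  have h5 : (‖G N φ‖ * Real.sin (φ / 2)) * (2 * N) ≤ 1 * (2 * N) := by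
    nlinarith
  exact le_of_mul_le_mul_right h5 (by positivity)

lemma G_cont (N : ℕ) : Continuous (G N) := by
  unfold G
  exact continuous_finsetSum _ fun j _ => continuous_const.mul (chr_cont _)

lemma chr_periodic (m : ℤ) : Function.Periodic (chr m) (2 * Real.pi) := by
  intro θ
  simp only [chr]
  rw [Complex.exp_eq_exp_iff_exists_int]
  refine ⟨m, ?_⟩
  push_cast
  ring

lemma G_periodic (N : ℕ) : Function.Periodic (G N) (2 * Real.pi) := by
  intro θ
  simp only [G]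
  refine Finset.sum_congr rfl fun j _ => ?_
  rw [chr_periodic]




lemma sin_half_pos {x : ℝ} (h0 : 0 < x) (h1 : x < 2 * Real.pi) : 0 < Real.sin (x / 2) :=
  Real.sin_pos_of_pos_of_lt_pi (by linarith) (by linarith)

lemma min_split {f : ℝ → ℝ} (hf : Continuous f) {N : ℕ} (hN : 0 < N)
    (hb : ∀ x ∈ Set.Ioo (0:ℝ) (2 * Real.pi), f x ≤ 1 / (2 * N * Real.sin (x / 2) ^ 2))
    {y : ℝ} (hy : 0 < y) {t : ℝ} (ht : 0 < t) (htp : t < Real.pi) :
    ∫ x in (0:ℝ)..(2 * Real.pi), min (f x) y ≤ 2 * t * y + 4 / (N * t) := by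
  have hN' : (0 : ℝ) < N := by exact_mod_cast hN
  have hc : Continuous (fun x => min (f x) y) := by fun_prop
  have hint : ∀ a b : ℝ, IntervalIntegrable (fun x => min (f x) y) volume a b :=
    fun a b => hc.intervalIntegrable a b
  rw [← intervalIntegral.integral_add_adjacent_intervals (hint 0 t) (hint t _),
    ← intervalIntegral.integral_add_adjacent_intervals (hint t (2 * Real.pi - t)) (hint _ _)]
  have h1 : ∫ x in (0:ℝ)..t, min (f x) y ≤ t * y := by
    have := intervalIntegral.integral_mono_on (μ := volume) ht.le (hint 0 t)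
      (intervalIntegrable_const (c := y)) (fun x _ => min_le_right (f x) y)
    simpa using this
  have h3 : ∫ x in (2 * Real.pi - t)..(2 * Real.pi), min (f x) y ≤ t * y := by
    have := intervalIntegral.integral_mono_on (μ := volume) (a := 2 * Real.pi - t)
      (b := 2 * Real.pi) (by linarith) (hint _ _)
      (intervalIntegrable_const (c := y)) (fun x _ => min_le_right (f x) y)
    simpa using this
  have h2 : ∫ x in t..(2 * Real.pi - t), min (f x) y ≤ 4 / (N * t) := by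
    have hle : t ≤ 2 * Real.pi - t := by linarith
    have hpos : ∀ x ∈ Set.Icc t (2 * Real.pi - t), 0 < Real.sin (x / 2) := fun x hx =>
      sin_half_pos (by linarith [hx.1]) (by linarith [hx.2])
    have hd : ∀ x ∈ Set.uIcc t (2 * Real.pi - t),
        HasDerivAt (fun x => -(Real.cos (x / 2) / Real.sin (x / 2)) / N)
          (1 / (2 * N * Real.sin (x / 2) ^ 2)) x := by
      intro x hx
      rw [Set.uIcc_of_le hle] at hx
      have hs := hpos x hx
      have h4 : HasDerivAt (fun x : ℝ => x / 2) (1 / 2) x := (hasDerivAt_id x).div_const 2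
      have h5 := (Real.hasDerivAt_cos (x / 2)).comp x h4
      have h6 := (Real.hasDerivAt_sin (x / 2)).comp x h4
      have h7 := ((h5.div h6 hs.ne').neg).div_const (N : ℝ)
      convert! h7 using 1
      simp only [Function.comp_apply]
      have h8 := Real.sin_sq_add_cos_sq (x / 2)
      field_simp
      nlinarith [h8]
    have hcont : ContinuousOn (fun x => 1 / (2 * N * Real.sin (x / 2) ^ 2))
        (Set.uIcc t (2 * Real.pi - t)) := by
      rw [Set.uIcc_of_le hle]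
      refine ContinuousOn.div (by fun_prop) (by fun_prop) fun x hx => ?_
      have := hpos x hx
      positivity
    have hI : IntervalIntegrable (fun x => 1 / (2 * N * Real.sin (x / 2) ^ 2)) volume t
      (2 * Real.pi - t) := hcont.intervalIntegrable
    have h4 := intervalIntegral.integral_mono_on (μ := volume) hle (hint _ _) hI (fun x hx =>
      (min_le_left (f x) y).trans (hb x ⟨by linarith [hx.1], by linarith [hx.2]⟩))
    refine h4.trans ?_
    rw [intervalIntegral.integral_eq_sub_of_hasDerivAt hd hI]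
    have h5 : (2 * Real.pi - t) / 2 = Real.pi - t / 2 := by ring
    rw [h5, Real.cos_pi_sub, Real.sin_pi_sub]
    have hs : 0 < Real.sin (t / 2) := hpos t ⟨le_rfl, hle⟩
    have hcs : 0 < Real.cos (t / 2) := Real.cos_pos_of_mem_Ioo ⟨by linarith, by linarith⟩
    have h6 : Real.cos (t / 2) * (t / 2) ≤ Real.sin (t / 2) := by
      have := Real.le_tan (x := t / 2) (by linarith) (by linarith)
      rw [Real.tan_eq_sin_div_cos, le_div_iff₀ hcs] at this
      linarith
    have h7 : Real.cos (t / 2) / Real.sin (t / 2) ≤ 2 / t := by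
      rw [div_le_div_iff₀ hs ht]
      linarith
    have h8 : -(-Real.cos (t / 2) / Real.sin (t / 2)) / (N : ℝ) -
        -(Real.cos (t / 2) / Real.sin (t / 2)) / N = 2 / N * (Real.cos (t / 2) / Real.sin (t / 2)) := by
      ring
    rw [h8]
    calc 2 / (N : ℝ) * (Real.cos (t / 2) / Real.sin (t / 2)) ≤ 2 / N * (2 / t) :=
          mul_le_mul_of_nonneg_left h7 (by positivity)
      _ = 4 / (N * t) := by field_simp; norm_num
  linarith

lemma int_min {f : ℝ → ℝ} (hf : Continuous f) (h0 : ∀ x, 0 ≤ f x) {N : ℕ} (hN : 0 < N)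
    (hb : ∀ x ∈ Set.Ioo (0:ℝ) (2 * Real.pi), f x ≤ 1 / (2 * N * Real.sin (x / 2) ^ 2))
    {y : ℝ} (hy : 0 < y) :
    ∫ x in (0:ℝ)..(2 * Real.pi), min (f x) y ≤ 6 * Real.sqrt (y / N) := by
  have hN' : (0 : ℝ) < N := by exact_mod_cast hN
  obtain ⟨s, hs⟩ : ∃ s, s = Real.sqrt (y / N) := ⟨_, rfl⟩
  have hspos : 0 < s := by rw [hs]; positivity
  have hs2 : s ^ 2 = y / N := by rw [hs]; exact Real.sq_sqrt (by positivity)
  have hy2 : y = N * s ^ 2 := by rw [hs2]; field_simp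
  rw [← hs]
  have h2 : Real.sqrt 2 ≤ 3 / 2 := by
    rw [Real.sqrt_le_left (by norm_num)]; norm_num
  have h22 : Real.sqrt 2 * Real.sqrt 2 = 2 := Real.mul_self_sqrt (by norm_num)
  have h2pos : 0 < Real.sqrt 2 := by positivity
  rcases lt_or_ge (Real.sqrt 2 / (N * s)) Real.pi with hlt | hge
  · refine (min_split hf hN hb hy (t := Real.sqrt 2 / (N * s)) (by positivity) hlt).trans ?_
    have e1 : 2 * (Real.sqrt 2 / (N * s)) * y = 2 * Real.sqrt 2 * s := by
      rw [hy2]; field_simp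
    have e2 : 4 / (N * (Real.sqrt 2 / (N * s))) = 2 * Real.sqrt 2 * s := by
      have : 4 / (N * (Real.sqrt 2 / (N * s))) = 4 * s / Real.sqrt 2 := by field_simp
      rw [this, div_eq_iff h2pos.ne']
      nlinarith [h22]
    rw [e1, e2]
    have h3 : Real.sqrt 2 * s ≤ 3 / 2 * s := mul_le_mul_of_nonneg_right h2 hspos.le
    linarith
  · have hc : Continuous (fun x => min (f x) y) := by fun_prop
    have h3 := intervalIntegral.integral_mono_on (μ := volume) (a := 0) (b := 2 * Real.pi)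
      (by positivity) (hc.intervalIntegrable _ _)
      (intervalIntegrable_const (c := y)) (fun x _ => min_le_right (f x) y)
    refine h3.trans ?_
    rw [intervalIntegral.integral_const, smul_eq_mul, sub_zero]
    rw [le_div_iff₀ (by positivity)] at hge
    calc 2 * Real.pi * y = 2 * s * (Real.pi * (N * s)) := by rw [hy2]; ring
      _ ≤ 2 * s * Real.sqrt 2 := mul_le_mul_of_nonneg_left hge (by positivity)
      _ ≤ 6 * s := by nlinarith

lemma half_log {f : ℝ → ℝ} (hf : Continuous f) {N : ℕ} (hN : 0 < N)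
    (h1 : ∀ x, f x ≤ (N : ℝ) / 2)
    (hb : ∀ x, 0 < x → x ≤ Real.pi → f x ≤ 1 / Real.sin (x / 2)) :
    ∫ x in (0:ℝ)..Real.pi, f x ≤ Real.pi / 2 + Real.pi * Real.log N := by
  have hN' : (0 : ℝ) < N := by exact_mod_cast hN
  have hN1 : (1 : ℝ) ≤ N := by exact_mod_cast hN
  have hpi := Real.pi_pos
  obtain ⟨a, ha⟩ : ∃ a, a = Real.pi / N := ⟨_, rfl⟩
  have hapos : 0 < a := by rw [ha]; positivity
  have hale : a ≤ Real.pi := by rw [ha]; exact div_le_self hpi.le hN1
  have hint : ∀ a b : ℝ, IntervalIntegrable f volume a b := fun a b => hf.intervalIntegrable a b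
  rw [← intervalIntegral.integral_add_adjacent_intervals (hint 0 a) (hint a _)]
  have h2 : ∫ x in (0:ℝ)..a, f x ≤ Real.pi / 2 := by
    have := intervalIntegral.integral_mono_on (μ := volume) hapos.le (hint 0 a)
      (intervalIntegrable_const (c := (N : ℝ) / 2)) (fun x _ => h1 x)
    refine this.trans (le_of_eq ?_)
    rw [intervalIntegral.integral_const, smul_eq_mul, sub_zero, ha]
    field_simp
  have h3 : ∫ x in a..Real.pi, f x ≤ Real.pi * Real.log N := by
    have hI : IntervalIntegrable (fun x => Real.pi * x⁻¹) volume a Real.pi := by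
      refine ContinuousOn.intervalIntegrable ?_
      rw [Set.uIcc_of_le hale]
      refine ContinuousOn.mul continuousOn_const (ContinuousOn.inv₀ continuousOn_id fun x hx => ?_)
      exact (lt_of_lt_of_le hapos hx.1).ne'
    have := intervalIntegral.integral_mono_on (μ := volume) hale (hint _ _) hI (fun x hx => by
      have hx0 : 0 < x := lt_of_lt_of_le hapos hx.1
      refine (hb x hx0 hx.2).trans ?_
      have h4 := Real.mul_le_sin (x := x / 2) (by linarith) (by linarith [hx.2])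
      have h5 : 2 / Real.pi * (x / 2) = x / Real.pi := by ring
      rw [h5] at h4
      have h6 : 0 < x / Real.pi := by positivity
      calc 1 / Real.sin (x / 2) ≤ 1 / (x / Real.pi) := one_div_le_one_div_of_le h6 h4
        _ = Real.pi * x⁻¹ := by field_simp)
    refine this.trans (le_of_eq ?_)
    rw [intervalIntegral.integral_const_mul, integral_inv_of_pos hapos hpi, ha]
    congr 2
    field_simp
  linarith

lemma int_log {f : ℝ → ℝ} (hf : Continuous f) {N : ℕ} (hN : 0 < N)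
    (h1 : ∀ x, f x ≤ (N : ℝ) / 2)
    (hb : ∀ x ∈ Set.Ioo (0:ℝ) (2 * Real.pi), f x ≤ 1 / Real.sin (x / 2)) :
    ∫ x in (0:ℝ)..(2 * Real.pi), f x ≤ Real.pi * (1 + 2 * Real.log N) := by
  have hpi := Real.pi_pos
  have hint : ∀ a b : ℝ, IntervalIntegrable f volume a b := fun a b => hf.intervalIntegrable a b
  rw [← intervalIntegral.integral_add_adjacent_intervals (hint 0 Real.pi) (hint Real.pi _)]
  have h2 := half_log hf hN h1 (fun x hx hx2 => hb x ⟨hx, by linarith⟩)
  have h3 := half_log (f := fun x => f (2 * Real.pi - x)) (by fun_prop) hN (fun x => h1 _)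
    (fun x hx hx2 => by
      have := hb (2 * Real.pi - x) ⟨by linarith, by linarith⟩
      have h5 : (2 * Real.pi - x) / 2 = Real.pi - x / 2 := by ring
      rwa [h5, Real.sin_pi_sub] at this)
  have h4 : ∫ x in (0:ℝ)..Real.pi, f (2 * Real.pi - x) = ∫ x in Real.pi..(2 * Real.pi), f x := by
    rw [intervalIntegral.integral_comp_sub_left f (2 * Real.pi)]
    congr 1 <;> ring
  rw [h4] at h3
  linarith




/-- the polynomial `p(W) = (W - c) β⁻¹ ∑_{j < J} (1 - (W + c)/β)^j`, `β = c (N+1)^2`,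
`J = 8 (N+1)^2`, an approximation of `(W - c)/(W + c)`. -/
def pol (c : ℝ) (N : ℕ) (W : ℂ) : ℂ :=
  (W - c) * (((c * ((N : ℝ) + 1) ^ 2 : ℝ) : ℂ)⁻¹ *
    ∑ j ∈ Finset.range (8 * (N + 1) ^ 2), (1 - (W + c) / ((c * ((N : ℝ) + 1) ^ 2 : ℝ) : ℂ)) ^ j)

lemma wc_ne {c : ℝ} (hc : 0 < c) {W : ℂ} (hre : 0 ≤ W.re) : W + c ≠ 0 := by
  intro h
  have := congrArg Complex.re h
  simp at this
  linarith

lemma q_norm {c : ℝ} (hc : 0 < c) {N : ℕ} {W : ℂ} (hre : 0 ≤ W.re)
    (hW : ‖W‖ ≤ c * N) :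
    ‖(1 - (W + c) / ((c * ((N : ℝ) + 1) ^ 2 : ℝ) : ℂ))‖ ^ 2 ≤ 1 - 1 / ((N : ℝ) + 1) ^ 2 := by
  set m : ℝ := (N : ℝ) + 1 with hm
  have hm0 : 0 < m := by positivity
  have hβ : 0 < c * m ^ 2 := by positivity
  have h1 : ‖W + c‖ ≤ c * m := by
    calc ‖W + c‖ ≤ ‖W‖ + ‖(c : ℂ)‖ := norm_add_le _ _
      _ = ‖W‖ + c := by rw [Complex.norm_real, Real.norm_of_nonneg hc.le]
      _ ≤ c * N + c := by linarith
      _ = c * m := by rw [hm]; ring
  have h2 : ‖W + c‖ ^ 2 ≤ (c * m) ^ 2 := by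
    exact pow_le_pow_left₀ (norm_nonneg _) h1 2
  rw [Complex.sq_norm, Complex.normSq_apply] at h2
  simp only [Complex.add_re, Complex.ofReal_re, Complex.add_im, Complex.ofReal_im, add_zero] at h2
  rw [Complex.sq_norm, Complex.normSq_apply]
  have e1 : (1 - (W + c) / ((c * m ^ 2 : ℝ) : ℂ)).re = 1 - (W.re + c) / (c * m ^ 2) := by
    rw [Complex.sub_re, Complex.div_ofReal_re, Complex.add_re, Complex.ofReal_re, Complex.one_re]
  have e2 : (1 - (W + c) / ((c * m ^ 2 : ℝ) : ℂ)).im = - (W.im / (c * m ^ 2)) := by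
    rw [Complex.sub_im, Complex.div_ofReal_im, Complex.add_im, Complex.ofReal_im, Complex.one_im]
    ring
  rw [e1, e2]
  have h3 : (1 - (W.re + c) / (c * m ^ 2)) * (1 - (W.re + c) / (c * m ^ 2)) +
      -(W.im / (c * m ^ 2)) * -(W.im / (c * m ^ 2)) =
      1 - 2 * (W.re + c) / (c * m ^ 2) +
        ((W.re + c) * (W.re + c) + W.im * W.im) / (c * m ^ 2) ^ 2 := by
    field_simp
    ring
  rw [h3]
  have h4 : ((W.re + c) * (W.re + c) + W.im * W.im) / (c * m ^ 2) ^ 2 ≤ 1 / m ^ 2 := by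
    rw [div_le_div_iff₀ (by positivity) (by positivity)]
    calc _ ≤ (c * m) ^ 2 * m ^ 2 := mul_le_mul_of_nonneg_right h2 (by positivity)
      _ = _ := by ring
  have h5 : 2 / m ^ 2 ≤ 2 * (W.re + c) / (c * m ^ 2) := by
    rw [div_le_div_iff₀ (by positivity) (by positivity)]
    have : 0 ≤ W.re * m ^ 2 := by positivity
    nlinarith
  have h6 : 2 / m ^ 2 = 1 / m ^ 2 + 1 / m ^ 2 := by ring
  linarith

lemma exp_four : Real.exp (-4) < 1 / 50 := by
  have h := Real.exp_one_gt_d9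
  have h1 : Real.exp 4 = (Real.exp 1) ^ 4 := by
    rw [← Real.exp_nat_mul]; norm_num
  rw [Real.exp_neg, h1, ← one_div]
  apply one_div_lt_one_div_of_lt (by norm_num)
  calc (50 : ℝ) < (2.7182818283 : ℝ) ^ 4 := by norm_num
    _ ≤ _ := pow_le_pow_left₀ (by norm_num) h.le 4

lemma qJ_norm {c : ℝ} (hc : 0 < c) {N : ℕ} {W : ℂ} (hre : 0 ≤ W.re)
    (hW : ‖W‖ ≤ c * N) :
    ‖(1 - (W + c) / ((c * ((N : ℝ) + 1) ^ 2 : ℝ) : ℂ)) ^ (8 * (N + 1) ^ 2)‖ ≤ 1 / 50 := by
  have h := q_norm hc hre hW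
  set q := (1 - (W + c) / ((c * ((N : ℝ) + 1) ^ 2 : ℝ) : ℂ))
  have h8 : 8 * (N + 1) ^ 2 = 2 * (4 * (N + 1) ^ 2) := by ring
  rw [norm_pow, h8, pow_mul]
  have h9 : 1 - 1 / ((N : ℝ) + 1) ^ 2 ≤ Real.exp (-(1 / ((N : ℝ) + 1) ^ 2)) := by
    have := Real.add_one_le_exp (-(1 / ((N : ℝ) + 1) ^ 2))
    linarith
  calc (‖q‖ ^ 2) ^ (4 * (N + 1) ^ 2) ≤ (Real.exp (-(1 / ((N : ℝ) + 1) ^ 2))) ^ (4 * (N + 1) ^ 2) :=
        pow_le_pow_left₀ (by positivity) (h.trans h9) _
    _ = Real.exp (-4) := by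
        rw [← Real.exp_nat_mul]
        congr 1
        push_cast
        have : ((N : ℝ) + 1) ≠ 0 := by positivity
        field_simp
    _ ≤ 1 / 50 := exp_four.le

lemma pol_eq {c : ℝ} (hc : 0 < c) {N : ℕ} {W : ℂ} (hre : 0 ≤ W.re) :
    pol c N W = (W - c) / (W + c) *
      (1 - (1 - (W + c) / ((c * ((N : ℝ) + 1) ^ 2 : ℝ) : ℂ)) ^ (8 * (N + 1) ^ 2)) := by
  unfold pol
  have hβ : 0 < c * ((N : ℝ) + 1) ^ 2 := by positivity
  have hβ' : ((c * ((N : ℝ) + 1) ^ 2 : ℝ) : ℂ) ≠ 0 := by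
    exact_mod_cast hβ.ne'
  have hw := wc_ne hc hre
  set β : ℂ := ((c * ((N : ℝ) + 1) ^ 2 : ℝ) : ℂ)
  set q : ℂ := 1 - (W + c) / β with hq
  have hq1 : q ≠ 1 := by
    intro h
    rw [hq] at h
    have : (W + c) / β = 0 := by linear_combination -h
    exact (div_ne_zero hw hβ') this
  rw [geom_sum_eq hq1]
  have h1 : q - 1 = - ((W + c) / β) := by rw [hq]; ring
  rw [h1]
  field_simp
  ring

lemma g_norm {c : ℝ} (hc : 0 < c) {W : ℂ} (hre : 0 ≤ W.re) : ‖(W - c) / (W + c)‖ ≤ 1 := by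
  have hw := wc_ne hc hre
  rw [norm_div, div_le_one (norm_pos_iff.mpr hw)]
  apply le_of_sq_le_sq _ (norm_nonneg _)
  rw [Complex.sq_norm, Complex.sq_norm, Complex.normSq_apply, Complex.normSq_apply]
  simp only [Complex.add_re, Complex.ofReal_re, Complex.add_im, Complex.ofReal_im, add_zero,
    Complex.sub_re, Complex.sub_im, sub_zero]
  nlinarith [mul_nonneg hre hc.le]

lemma g_re {c : ℝ} (hc : 0 < c) {W : ℂ} (hre : 0 ≤ W.re) :
    (W.re - c) / (W.re + c) ≤ ((W - c) / (W + c)).re := by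
  have hw := wc_ne hc hre
  have hn : 0 < Complex.normSq (W + c) := Complex.normSq_pos.mpr hw
  rw [Complex.div_re, ← add_div]
  have hd : 0 < W.re + c := by linarith
  rw [div_le_div_iff₀ hd hn]
  rw [Complex.normSq_apply]
  simp only [Complex.add_re, Complex.ofReal_re, Complex.add_im, Complex.ofReal_im, add_zero,
    Complex.sub_re, Complex.sub_im, sub_zero]
  have : 0 ≤ c * (W.im * W.im) := mul_nonneg hc.le (mul_self_nonneg _)
  nlinarith

lemma pol_norm_le {c : ℝ} (hc : 0 < c) {N : ℕ} (hN : 0 < N) {W : ℂ} (hre : 0 ≤ W.re)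
    (hW : ‖W‖ ≤ c * N) : ‖pol c N W‖ ≤ 1 + 1 / 50 := by
  rw [pol_eq hc hre, norm_mul]
  have h1 := g_norm hc hre
  have h2 := qJ_norm hc hre hW
  set q := (1 - (W + c) / ((c * ((N : ℝ) + 1) ^ 2 : ℝ) : ℂ)) ^ (8 * (N + 1) ^ 2)
  have h3 : ‖1 - q‖ ≤ 1 + 1 / 50 := by
    calc ‖1 - q‖ ≤ ‖(1 : ℂ)‖ + ‖q‖ := norm_sub_le _ _
      _ ≤ 1 + 1 / 50 := by rw [norm_one]; linarith
  calc _ ≤ 1 * (1 + 1 / 50 : ℝ) := mul_le_mul h1 h3 (norm_nonneg _) zero_le_one
    _ = _ := by ring

lemma pol_re_ge {c : ℝ} (hc : 0 < c) {N : ℕ} (hN : 0 < N) {W : ℂ} (hre : 0 ≤ W.re)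
    (hW : ‖W‖ ≤ c * N) : (W.re - c) / (W.re + c) - 1 / 50 ≤ (pol c N W).re := by
  rw [pol_eq hc hre]
  have h1 := g_norm hc hre
  have h2 := qJ_norm hc hre hW
  have h3 := g_re hc hre
  set q := (1 - (W + c) / ((c * ((N : ℝ) + 1) ^ 2 : ℝ) : ℂ)) ^ (8 * (N + 1) ^ 2)
  set g := (W - c) / (W + c)
  have h4 : g * (1 - q) = g - g * q := by ring
  rw [h4, Complex.sub_re]
  have h5 : (g * q).re ≤ 1 / 50 := by
    calc (g * q).re ≤ ‖g * q‖ := Complex.re_le_norm _
      _ = ‖g‖ * ‖q‖ := norm_mul _ _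
      _ ≤ 1 * (1 / 50 : ℝ) := mul_le_mul h1 h2 (norm_nonneg _) zero_le_one
      _ = _ := by ring
  linarith


lemma min_sum_le {ι : Type*} (s : Finset ι) (x : ι → ℝ) (hx : ∀ i ∈ s, 0 ≤ x i) {y : ℝ} (hy : 0 ≤ y) :
    min (∑ i ∈ s, x i) y ≤ ∑ i ∈ s, min (x i) y := by
  classical
  induction s using Finset.induction_on with
  | empty => simp [hy]
  | insert a s ha ih =>
    rw [Finset.sum_insert ha, Finset.sum_insert ha]
    have h1 := ih (fun i hi => hx i (Finset.mem_insert_of_mem hi))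
    have h2 : 0 ≤ x a := hx a (Finset.mem_insert_self a s)
    have h3 : 0 ≤ ∑ i ∈ s, x i := Finset.sum_nonneg (fun i hi => hx i (Finset.mem_insert_of_mem hi))
    have h4 : min (x a + ∑ i ∈ s, x i) y ≤ min (x a) y + min (∑ i ∈ s, x i) y := by
      rcases le_total (x a) y with h | h <;> rcases le_total (∑ i ∈ s, x i) y with h' | h' <;>
      simp only [min_eq_left h, min_eq_right h, min_eq_left h', min_eq_right h'] <;>
      rcases le_total (x a + ∑ i ∈ s, x i) y with h'' | h'' <;>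
      simp only [min_eq_left h'', min_eq_right h''] <;> linarith
    linarith

lemma scalar_ineq {c D : ℝ} (hc : 0 < c) (hD : 0 ≤ D) :
    D / 2 - 3 / 2 * min D (3 * c) ≤ D * ((D - c) / (D + c)) := by
  have h1 : 0 < D + c := by linarith
  rw [← mul_div_assoc, le_div_iff₀ h1]
  rcases le_total D (3 * c) with h | h
  · rw [min_eq_left h]; nlinarith [mul_nonneg hD hc.le, mul_nonneg hD hD]
  · rw [min_eq_right h]; nlinarith [mul_nonneg hD hc.le, mul_nonneg hD hD, mul_pos hc hc]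

lemma TP_Icc_mono {a b c d : ℤ} (h1 : c ≤ a) (h2 : b ≤ d) {f : ℝ → ℂ}
    (hf : f ∈ TP (Set.Icc a b)) : f ∈ TP (Set.Icc c d) :=
  TP_mono (Set.Icc_subset_Icc h1 h2) hf

lemma TP_pow {b : ℤ} {f : ℝ → ℂ} (hf : f ∈ TP (Set.Icc 0 b)) (j : ℕ) :
    (fun θ => f θ ^ j) ∈ TP (Set.Icc 0 (j * b)) := by
  induction j with
  | zero => simpa using TP_const 1
  | succ j ih =>
    have := TP_mul ih hf
    simp only [add_zero] at this
    have h2 : ((j : ℤ) * b + b) = ((j + 1 : ℕ) : ℤ) * b := by push_cast; ring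
    rw [h2] at this
    simpa [pow_succ] using this

lemma TP_sum {ι : Type*} (s : Finset ι) (f : ι → ℝ → ℂ) {S : Set ℤ} (hf : ∀ i ∈ s, f i ∈ TP S) :
    (fun θ => ∑ i ∈ s, f i θ) ∈ TP S := by
  have : (fun θ => ∑ i ∈ s, f i θ) = ∑ i ∈ s, f i := by ext θ; simp
  rw [this]
  exact Submodule.sum_mem _ hf

lemma TP_smul {S : Set ℤ} (z : ℂ) {f : ℝ → ℂ} (hf : f ∈ TP S) : (fun θ => z * f θ) ∈ TP S := by
  have : (fun θ => z * f θ) = z • f := by ext θ; simp
  rw [this]; exact Submodule.smul_mem _ _ hf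

lemma TP_add {S : Set ℤ} {f g : ℝ → ℂ} (hf : f ∈ TP S) (hg : g ∈ TP S) :
    (fun θ => f θ + g θ) ∈ TP S := Submodule.add_mem _ hf hg

lemma TP_sub {S : Set ℤ} {f g : ℝ → ℂ} (hf : f ∈ TP S) (hg : g ∈ TP S) :
    (fun θ => f θ - g θ) ∈ TP S := Submodule.sub_mem _ hf hg

/-- the block sum -/
def SB (N : ℕ) (B : Finset ℕ) (θ : ℝ) : ℂ := ∑ b ∈ B, G N ((b : ℝ) * θ)

lemma SB_TP {N : ℕ} {B : Finset ℕ} {X Y : ℕ} (hBX : ∀ b ∈ B, X ≤ b ∧ b < Y) :
    SB N B ∈ TP (Set.Icc (X : ℤ) ((N : ℤ) * Y)) := by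
  apply TP_sum
  intro b hb
  obtain ⟨h1, h2⟩ := hBX b hb
  refine TP_Icc_mono ?_ ?_ (TP_G N b)
  · exact_mod_cast h1
  · have : (b : ℤ) ≤ Y := by exact_mod_cast h2.le
    exact mul_le_mul_of_nonneg_left this (by positivity)

lemma pol_TP {N : ℕ} (hN : 0 < N) {B : Finset ℕ} {X Y : ℕ} (hX : 0 < X) (hXY : X ≤ Y)
    (hBX : ∀ b ∈ B, X ≤ b ∧ b < Y) (c : ℝ) :
    (fun θ => pol c N (c + SB N B θ)) ∈ TP (Set.Icc (X : ℤ) ((8 * (N + 1) ^ 3 * Y : ℕ) : ℤ)) := by
  have hS := SB_TP (N := N) hBX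
  set β : ℂ := ((c * ((N : ℝ) + 1) ^ 2 : ℝ) : ℂ) with hβ
  have hq : (fun θ => 1 - ((c : ℂ) + SB N B θ + c) / β) ∈ TP (Set.Icc 0 ((N : ℤ) * Y)) := by
    have h1 : (fun θ => 1 - ((c : ℂ) + SB N B θ + c) / β) =
        fun θ => (1 - (2 * c) / β) + (-(1 / β)) * SB N B θ := by
      ext θ; ring
    rw [h1]
    refine TP_add (TP_Icc_mono le_rfl ?_ (TP_const _)) (TP_smul _ (TP_Icc_mono ?_ le_rfl hS))
    · positivity
    · positivity
  have hsum : (fun θ => ∑ j ∈ Finset.range (8 * (N + 1) ^ 2),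
      (1 - ((c : ℂ) + SB N B θ + c) / β) ^ j) ∈
      TP (Set.Icc 0 (((8 * (N + 1) ^ 2 - 1 : ℕ) : ℤ) * ((N : ℤ) * Y))) := by
    refine TP_sum _ (fun j θ => (1 - ((c : ℂ) + SB N B θ + c) / β) ^ j) ?_
    intro j hj
    refine TP_Icc_mono le_rfl ?_ (TP_pow hq j)
    have : j ≤ 8 * (N + 1) ^ 2 - 1 := by
      have := Finset.mem_range.1 hj; omega
    have h2 : (j : ℤ) ≤ ((8 * (N + 1) ^ 2 - 1 : ℕ) : ℤ) := by exact_mod_cast this
    exact mul_le_mul_of_nonneg_right h2 (by positivity)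
  have hprod := TP_mul hS (TP_smul β⁻¹ hsum)
  have heq : (fun θ => pol c N (c + SB N B θ)) = fun θ => SB N B θ * (β⁻¹ *
      ∑ j ∈ Finset.range (8 * (N + 1) ^ 2), (1 - ((c : ℂ) + SB N B θ + c) / β) ^ j) := by
    ext θ
    unfold pol
    rw [← hβ]
    congr 1
    ring
  rw [heq]
  refine TP_Icc_mono (by simp) ?_ hprod
  have h8 : 1 ≤ 8 * (N + 1) ^ 2 := by nlinarith [Nat.zero_le N, Nat.zero_le ((N+1)^2)]
  push_cast [Nat.cast_sub h8]
  have hNY : (0:ℤ) ≤ (N : ℤ) * Y := by positivity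
  have hY : (0:ℤ) ≤ (Y : ℤ) := by positivity
  have hN0 : (0:ℤ) ≤ (N : ℤ) := by positivity
  have : (N : ℤ) * Y + (8 * ((N : ℤ) + 1) ^ 2 - 1) * ((N : ℤ) * Y) = 8 * ((N : ℤ) + 1) ^ 2 * N * Y := by ring
  rw [this]
  have h3 : 8 * ((N : ℤ) + 1) ^ 2 * N ≤ 8 * ((N : ℤ) + 1) ^ 3 := by nlinarith [sq_nonneg ((N:ℤ)+1)]
  exact mul_le_mul_of_nonneg_right h3 hY

lemma int_re {f : ℝ → ℂ} (hf : Continuous f) :
    ∫ θ in (0:ℝ)..(2 * Real.pi), (f θ).re = (∫ θ in (0:ℝ)..(2 * Real.pi), f θ).re := by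
  have := (Complex.reCLM).intervalIntegral_comp_comm (μ := volume) (hf.intervalIntegrable 0 (2 * Real.pi))
  simpa using this

/-- core one block estimate -/
lemma core {N : ℕ} {B : Finset ℕ} (hB : B.Nonempty) (hN : 500 * B.card ≤ N) {X Y : ℕ}
    (hX : 0 < X) (hXY : X ≤ Y) (hBX : ∀ b ∈ B, X ≤ b ∧ b < Y) :
    ∃ P : ℝ → ℂ, P ∈ TP (Set.Icc (X : ℤ) ((8 * (N + 1) ^ 3 * Y : ℕ) : ℤ)) ∧ (∀ θ, ‖P θ‖ ≤ 1) ∧
      ∀ (d : ℤ) (μ : ℝ → ℝ), (fun θ => (μ θ : ℂ)) ∈ TP (Set.Icc (-d) d) → d < X →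
        (∀ θ, 0 ≤ μ θ) → (∫ θ in (0:ℝ)..(2 * Real.pi), μ θ) = 2 * Real.pi →
        2 * Real.pi * ((B.card : ℝ) / 8) ≤
          ∫ θ in (0:ℝ)..(2 * Real.pi), μ θ * ((P θ).re * (SB N B θ).re) := by
  have hcard : 0 < B.card := hB.card_pos
  have hN0 : 0 < N := by omega
  set c : ℝ := (B.card : ℝ) / 2 with hc
  have hcpos : 0 < c := by positivity
  have hNc : 1000 * c ≤ N := by
    rw [hc]; have : ((500 * B.card : ℕ) : ℝ) ≤ N := by exact_mod_cast hN
    push_cast at this; linarith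
  have hcont : Continuous (SB N B) := TP_cont (SB_TP (N := N) hBX)
  have hWre : ∀ θ, ((c : ℂ) + SB N B θ).re = ∑ b ∈ B, ((1 / 2 : ℝ) + (G N ((b : ℝ) * θ)).re) := by
    intro θ
    unfold SB
    rw [Complex.add_re, Complex.re_sum, Finset.sum_add_distrib]
    simp [hc]; ring
  have hWre0 : ∀ θ, 0 ≤ ((c : ℂ) + SB N B θ).re := by
    intro θ; rw [hWre]; exact Finset.sum_nonneg (fun b _ => G_re_nonneg N hN0 _)
  have hWn : ∀ θ, ‖(c : ℂ) + SB N B θ‖ ≤ c * N := by
    intro θ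
    have h1 : (c : ℂ) + SB N B θ = ∑ b ∈ B, ((1 / 2 : ℂ) + G N ((b : ℝ) * θ)) := by
      unfold SB
      rw [Finset.sum_add_distrib]
      simp [hc]; ring
    rw [h1]
    refine (norm_sum_le _ _).trans ((Finset.sum_le_sum (fun b _ => half_add_G_norm_le N hN0 _)).trans ?_)
    simp [hc]; ring_nf; rfl
  set p : ℝ → ℂ := fun θ => pol c N (c + SB N B θ) with hp
  have hpTP : p ∈ TP (Set.Icc (X : ℤ) ((8 * (N + 1) ^ 3 * Y : ℕ) : ℤ)) := pol_TP hN0 hX hXY hBX c
  have hpcont : Continuous p := TP_cont hpTP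
  refine ⟨fun θ => (50 / 51 : ℂ) * p θ, TP_smul _ hpTP, ?_, ?_⟩
  · intro θ
    have h1 := pol_norm_le hcpos hN0 (hWre0 θ) (hWn θ)
    rw [norm_mul]
    have h2 : ‖(50 / 51 : ℂ)‖ = 50 / 51 := by norm_num
    rw [h2]
    have : ‖p θ‖ ≤ 1 + 1 / 50 := h1
    linarith
  · intro d μ hμ hd hμ0 hμ1
    have hμc : Continuous μ := by
      have := TP_cont hμ
      exact (Complex.continuous_re.comp this).congr (fun θ => by simp)
    -- integral of μ * p vanishes
    have hIp : ∫ θ in (0:ℝ)..(2 * Real.pi), μ θ * (p θ).re = 0 := by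
      have h1 := TP_int_zero (TP_mul hμ hpTP) (Or.inl (by linarith))
      have h2 : Continuous (fun θ => (μ θ : ℂ) * p θ) := (Complex.continuous_ofReal.comp hμc).mul hpcont
      have h3 := int_re h2
      rw [h1] at h3
      simpa using h3
    have hIS : ∫ θ in (0:ℝ)..(2 * Real.pi), μ θ * (SB N B θ).re = 0 := by
      have h1 := TP_int_zero (TP_mul hμ (SB_TP (N := N) hBX)) (Or.inl (by linarith))
      have h2 : Continuous (fun θ => (μ θ : ℂ) * SB N B θ) := (Complex.continuous_ofReal.comp hμc).mul hcont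
      have h3 := int_re h2
      rw [h1] at h3
      simpa using h3
    set D : ℝ → ℝ := fun θ => ((c : ℂ) + SB N B θ).re with hD
    have hDc : Continuous D := by
      refine Complex.continuous_re.comp (continuous_const.add hcont)
    have hDS : ∀ θ, (SB N B θ).re = D θ - c := by intro θ; simp [hD]
    have hmin : ∫ θ in (0:ℝ)..(2 * Real.pi), μ θ * min (D θ) (3 * c) ≤
        (B.card : ℝ) * (6 * Real.sqrt (3 * c / N)) := by
      have h1 : ∫ θ in (0:ℝ)..(2 * Real.pi), μ θ * min (D θ) (3 * c) ≤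
          ∫ θ in (0:ℝ)..(2 * Real.pi), ∑ b ∈ B,
            μ θ * min ((1 / 2 : ℝ) + (G N ((b : ℝ) * θ)).re) (3 * c) := by
        apply intervalIntegral.integral_mono_on (by positivity)
        · exact (hμc.mul (hDc.min continuous_const)).intervalIntegrable _ _
        · apply Continuous.intervalIntegrable
          refine continuous_finsetSum _ (fun b _ => hμc.mul (Continuous.min ?_ continuous_const))
          exact continuous_const.add (Complex.continuous_re.comp ((G_cont N).comp (continuous_const.mul continuous_id)))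
        · intro θ _
          rw [← Finset.mul_sum]
          refine mul_le_mul_of_nonneg_left ?_ (hμ0 θ)
          rw [hD]; simp only [hWre]
          exact min_sum_le _ _ (fun b _ => G_re_nonneg N hN0 _) (by positivity)
      refine h1.trans ?_
      rw [intervalIntegral.integral_finsetSum]
      · have h2 : ∀ b ∈ B, ∫ θ in (0:ℝ)..(2 * Real.pi),
            μ θ * min ((1 / 2 : ℝ) + (G N ((b : ℝ) * θ)).re) (3 * c) ≤ 6 * Real.sqrt (3 * c / N) := by
          intro b hb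
          obtain ⟨hb1, hb2⟩ := hBX b hb
          set ψ : ℝ → ℝ := fun φ => min ((1 / 2 : ℝ) + (G N φ).re) (3 * c) with hψ
          have hψc : Continuous ψ :=
            (continuous_const.add (Complex.continuous_re.comp (G_cont N))).min continuous_const
          have hψp : Function.Periodic (fun φ => ((ψ φ : ℝ) : ℂ)) (2 * Real.pi) := by
            intro φ; simp only [hψ]; rw [G_periodic N φ]
          have h3 := equi (a := b) hμ (by have : (X:ℤ) ≤ b := by exact_mod_cast hb1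
                                          linarith) (by omega)
            (ψ := fun φ => ((ψ φ : ℝ) : ℂ)) (Complex.continuous_ofReal.comp hψc) hψp
          have h4 : ∫ θ in (0:ℝ)..(2 * Real.pi), μ θ * ψ ((b : ℝ) * θ) =
              (2 * Real.pi)⁻¹ * (∫ θ in (0:ℝ)..(2 * Real.pi), μ θ) *
                ∫ θ in (0:ℝ)..(2 * Real.pi), ψ θ := by
            have h5 : ((∫ θ in (0:ℝ)..(2 * Real.pi), μ θ * ψ ((b : ℝ) * θ) : ℝ) : ℂ) =
                (((2 * Real.pi)⁻¹ * (∫ θ in (0:ℝ)..(2 * Real.pi), μ θ) *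
                ∫ θ in (0:ℝ)..(2 * Real.pi), ψ θ : ℝ) : ℂ) := by
              push_cast [← intervalIntegral.integral_ofReal]
              simpa using h3
            exact_mod_cast h5
          have h6 : ∫ θ in (0:ℝ)..(2 * Real.pi), μ θ * ψ ((b : ℝ) * θ) =
              ∫ θ in (0:ℝ)..(2 * Real.pi), ψ θ := by
            rw [h4, hμ1, inv_mul_cancel₀ (by positivity), one_mul]
          change ∫ θ in (0:ℝ)..(2 * Real.pi), μ θ * ψ ((b : ℝ) * θ) ≤ _
          rw [h6]
          exact int_min (f := fun φ => (1 / 2 : ℝ) + (G N φ).re)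
            (continuous_const.add (Complex.continuous_re.comp (G_cont N)))
            (fun φ => G_re_nonneg N hN0 φ) hN0 (fun φ hφ => G_re_le N hN0 hφ) (by positivity)
        refine (Finset.sum_le_sum h2).trans ?_
        simp
      · intro b _
        apply Continuous.intervalIntegrable
        refine hμc.mul (Continuous.min ?_ continuous_const)
        exact continuous_const.add (Complex.continuous_re.comp ((G_cont N).comp (continuous_const.mul continuous_id)))
    have hsq : Real.sqrt (3 * c / N) ≤ 55 / 1000 := by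
      rw [Real.sqrt_le_left (by norm_num)]
      rw [div_le_iff₀ (by positivity)]
      nlinarith
    have hpt : ∀ θ, (12 / 25 : ℝ) * D θ - 3 / 2 * min (D θ) (3 * c) ≤ D θ * (p θ).re := by
      intro θ
      have h1 := pol_re_ge hcpos hN0 (hWre0 θ) (hWn θ)
      have h2 := scalar_ineq hcpos (hWre0 θ)
      have h3 : D θ * ((D θ - c) / (D θ + c) - 1 / 50) ≤ D θ * (p θ).re :=
        mul_le_mul_of_nonneg_left h1 (hWre0 θ)
      have h4 : D θ / 2 - 3 / 2 * min (D θ) (3 * c) ≤ D θ * ((D θ - c) / (D θ + c)) := h2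
      nlinarith
    have hID : ∫ θ in (0:ℝ)..(2 * Real.pi), μ θ * D θ = 2 * Real.pi * c := by
      have h1 : ∀ θ, μ θ * D θ = μ θ * (SB N B θ).re + c * μ θ := by
        intro θ; rw [hDS]; ring
      simp_rw [h1]
      rw [intervalIntegral.integral_add, hIS, intervalIntegral.integral_const_mul, hμ1]
      · ring
      · exact (hμc.mul (Complex.continuous_re.comp hcont)).intervalIntegrable _ _
      · exact (continuous_const.mul hμc).intervalIntegrable _ _
    have hmain : (12 / 25 : ℝ) * (2 * Real.pi * c) - 3 / 2 * ((B.card : ℝ) * (6 * Real.sqrt (3 * c / N)))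
        ≤ ∫ θ in (0:ℝ)..(2 * Real.pi), μ θ * (D θ * (p θ).re) := by
      have h1 : ∫ θ in (0:ℝ)..(2 * Real.pi),
          ((12 / 25 : ℝ) * (μ θ * D θ) - 3 / 2 * (μ θ * min (D θ) (3 * c))) ≤
          ∫ θ in (0:ℝ)..(2 * Real.pi), μ θ * (D θ * (p θ).re) := by
        apply intervalIntegral.integral_mono_on (by positivity)
        · exact ((continuous_const.mul (hμc.mul hDc)).sub
            (continuous_const.mul (hμc.mul (hDc.min continuous_const)))).intervalIntegrable _ _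
        · exact (hμc.mul (hDc.mul (Complex.continuous_re.comp hpcont))).intervalIntegrable _ _
        · intro θ _
          have := mul_le_mul_of_nonneg_left (hpt θ) (hμ0 θ)
          linarith
      rw [intervalIntegral.integral_sub, intervalIntegral.integral_const_mul,
        intervalIntegral.integral_const_mul, hID] at h1
      · linarith
      · exact (continuous_const.mul (hμc.mul hDc)).intervalIntegrable _ _
      · exact (continuous_const.mul (hμc.mul (hDc.min continuous_const))).intervalIntegrable _ _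
    have hfin : ∫ θ in (0:ℝ)..(2 * Real.pi),
        μ θ * (((50 / 51 : ℂ) * p θ).re * (SB N B θ).re) =
        50 / 51 * ∫ θ in (0:ℝ)..(2 * Real.pi), μ θ * (D θ * (p θ).re) := by
      have h1 : ∀ θ, μ θ * (((50 / 51 : ℂ) * p θ).re * (SB N B θ).re) =
          50 / 51 * (μ θ * (D θ * (p θ).re)) - 50 / 51 * c * (μ θ * (p θ).re) := by
        intro θ
        have h2 : ((50 / 51 : ℂ) * p θ).re = 50 / 51 * (p θ).re := by
          have : (50 / 51 : ℂ) = ((50 / 51 : ℝ) : ℂ) := by norm_num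
          rw [this, Complex.re_ofReal_mul]
        rw [h2, hDS]; ring
      simp_rw [h1]
      rw [intervalIntegral.integral_sub, intervalIntegral.integral_const_mul,
        intervalIntegral.integral_const_mul, hIp]
      · ring
      · exact (continuous_const.mul (hμc.mul (hDc.mul (Complex.continuous_re.comp hpcont)))).intervalIntegrable _ _
      · exact (continuous_const.mul (hμc.mul (Complex.continuous_re.comp hpcont))).intervalIntegrable _ _
    rw [hfin]
    have hB2 : (B.card : ℝ) = 2 * c := by rw [hc]; ring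
    rw [hB2] at hmain ⊢
    have hpi := Real.pi_gt_d2
    nlinarith [hmain, hsq, hcpos, mul_le_mul_of_nonneg_left hsq hcpos.le, mul_pos hcpos Real.pi_pos]

lemma int_re' {f : ℝ → ℂ} (hf : Continuous f) :
    ∫ θ in (0:ℝ)..(2 * Real.pi), (f θ).re = (∫ θ in (0:ℝ)..(2 * Real.pi), f θ).re := int_re hf

lemma re_mul_re (u v : ℂ) : u.re * v.re = (1 / 2) * (u * v).re + (1 / 2) * (u * conj v).re := by
  simp [Complex.mul_re]; ring

lemma int_re_re {d p1 p2 s1 s2 : ℤ} {μ : ℝ → ℝ} (hμ : (fun θ => (μ θ : ℂ)) ∈ TP (Set.Icc (-d) d))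
    {P S : ℝ → ℂ} (hP : P ∈ TP (Set.Icc p1 p2)) (hS : S ∈ TP (Set.Icc s1 s2))
    (h : d < p1 + s1) {κ : ℂ} (hκ : ‖κ‖ = 1) :
    ∫ θ in (0:ℝ)..(2 * Real.pi), μ θ * ((κ * P θ).re * (κ * S θ).re) =
      (1 / 2) * (∫ θ in (0:ℝ)..(2 * Real.pi), (μ θ : ℂ) * (P θ * conj (S θ))).re := by
  have hμc : Continuous μ := by
    have := TP_cont hμ
    exact (Complex.continuous_re.comp this).congr (fun θ => by simp)
  have hμC : Continuous (fun θ => (μ θ : ℂ)) := Complex.continuous_ofReal.comp hμc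
  have hPc := TP_cont hP
  have hSc := TP_cont hS
  have hScc : Continuous (fun θ => conj (S θ)) := Complex.continuous_conj.comp hSc
  have h1 : ∫ θ in (0:ℝ)..(2 * Real.pi), (μ θ : ℂ) * (κ * P θ * (κ * S θ)) = 0 := by
    have h2 := TP_int_zero (TP_mul hμ (TP_mul (TP_smul κ hP) (TP_smul κ hS)))
      (Or.inl (by linarith))
    exact h2
  have h3 : ∀ θ, κ * P θ * conj (κ * S θ) = P θ * conj (S θ) := by
    intro θ
    rw [map_mul]
    have : κ * conj κ = 1 := by
      rw [Complex.mul_conj, Complex.normSq_eq_norm_sq, hκ]; simp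
    calc κ * P θ * (conj κ * conj (S θ)) = (κ * conj κ) * (P θ * conj (S θ)) := by ring
      _ = _ := by rw [this, one_mul]
  have h4 : ∀ θ, μ θ * ((κ * P θ).re * (κ * S θ).re) =
      (1 / 2) * ((μ θ : ℂ) * (κ * P θ * (κ * S θ))).re +
      (1 / 2) * ((μ θ : ℂ) * (P θ * conj (S θ))).re := by
    intro θ
    rw [re_mul_re, h3, Complex.re_ofReal_mul, Complex.re_ofReal_mul]; ring
  simp_rw [h4]
  have c1 : Continuous (fun θ => (μ θ : ℂ) * (κ * P θ * (κ * S θ))) :=
    hμC.mul ((continuous_const.mul hPc).mul (continuous_const.mul hSc))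
  have c2 : Continuous (fun θ => (μ θ : ℂ) * (P θ * conj (S θ))) :=
    hμC.mul (hPc.mul hScc)
  rw [intervalIntegral.integral_add, intervalIntegral.integral_const_mul,
    intervalIntegral.integral_const_mul, int_re c1, int_re c2, h1]
  · simp
  · exact (continuous_const.mul (Complex.continuous_re.comp c1)).intervalIntegrable _ _
  · exact (continuous_const.mul (Complex.continuous_re.comp c2)).intervalIntegrable _ _

/-- number of dyadic intervals `[2^i, 2^(i+1))` met by `A` -/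
def dyadicCount (A : Finset ℕ) : ℕ := (A.image (fun a => Nat.log 2 a)).card

/-- elements of `A` in `[X, Y)` -/
def blk (A : Finset ℕ) (X Y : ℕ) : Finset ℕ := A.filter (fun a => X ≤ a ∧ a < Y)

/-- elements of `A` within a factor `R` of `[X, Y)`, but not in it -/
def zone (A : Finset ℕ) (R X Y : ℕ) : Finset ℕ :=
  A.filter (fun a => (a < X ∧ X ≤ R * a) ∨ (Y ≤ a ∧ a < R * Y))

/-- one step: multiply the density by `1 + Re (κ P)` -/
lemma step {N : ℕ} {A : Finset ℕ} (hA : ∀ a ∈ A, 0 < a) {X Y R : ℕ} (hR : 16 * (N + 1) ^ 4 ≤ R)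
    (hX : 0 < X) (hXY : X ≤ Y) (hBne : (blk A X Y).Nonempty) (hN : 500 * (blk A X Y).card ≤ N)
    (hz : ((zone A R X Y).card : ℝ) * (1 + Real.log N) ≤ ((blk A X Y).card : ℝ) / 16)
    {κ : ℂ} (hκ : ‖κ‖ = 1) {d : ℕ} {μ : ℝ → ℝ}
    (hμ : (fun θ => (μ θ : ℂ)) ∈ TP (Set.Icc (-(d : ℤ)) d)) (hd : R * d < X)
    (h0 : ∀ θ, 0 ≤ μ θ) (h1 : (∫ θ in (0:ℝ)..(2 * Real.pi), μ θ) = 2 * Real.pi) :
    ∃ (d' : ℕ) (μ' : ℝ → ℝ), d' < R * Y ∧ (fun θ => (μ' θ : ℂ)) ∈ TP (Set.Icc (-(d' : ℤ)) d') ∧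
      (∀ θ, 0 ≤ μ' θ) ∧ (∫ θ in (0:ℝ)..(2 * Real.pi), μ' θ) = 2 * Real.pi ∧
      (∫ θ in (0:ℝ)..(2 * Real.pi), μ θ * (κ * SB N A θ).re) +
        2 * Real.pi * (((blk A X Y).card : ℝ) / 16) ≤
      ∫ θ in (0:ℝ)..(2 * Real.pi), μ' θ * (κ * SB N A θ).re := by
  classical
  set B := blk A X Y with hB
  have hN0 : 0 < N := by have := hBne.card_pos; omega
  have hBX : ∀ b ∈ B, X ≤ b ∧ b < Y := by
    intro b hb; rw [hB, blk, Finset.mem_filter] at hb; exact hb.2
  obtain ⟨P, hP, hP1, hcore⟩ := core hBne hN hX hXY hBX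
  set L : ℕ := 8 * (N + 1) ^ 3 * Y with hL
  have hcore' := hcore d μ hμ (by
    have h16 : 1 ≤ R := le_trans (by nlinarith [Nat.one_le_pow 4 (N+1) (by omega)]) hR
    have : d < X := by nlinarith
    exact_mod_cast this) h0 h1
  have hR1 : 1 ≤ R := le_trans (by nlinarith [Nat.one_le_pow 4 (N+1) (by omega)]) hR
  have hdX : d < X := by nlinarith
  have hμc : Continuous μ := by
    have := TP_cont hμ
    exact (Complex.continuous_re.comp this).congr (fun θ => by simp)
  have hPc : Continuous P := TP_cont hP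
  have hSAc : Continuous (SB N A) := by
    unfold SB
    exact continuous_finsetSum _ (fun b _ => (G_cont N).comp (continuous_const.mul continuous_id))
  have hκPc : Continuous (fun θ => (κ * P θ).re) := Complex.continuous_re.comp (continuous_const.mul hPc)
  have hρ1 : ∀ θ, |(κ * P θ).re| ≤ 1 := by
    intro θ
    refine (Complex.abs_re_le_norm _).trans ?_
    rw [norm_mul, hκ, one_mul]; exact hP1 θ
  refine ⟨d + L, fun θ => μ θ * (1 + (κ * P θ).re), ?_, ?_, ?_, ?_, ?_⟩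
  · -- degree bound
    have hYd : d < Y := lt_of_lt_of_le hdX hXY
    have e1 : 9 * (N + 1) ^ 3 ≤ 16 * (N + 1) ^ 4 := by
      have : (N + 1) ^ 4 = (N + 1) ^ 3 * (N + 1) := by ring
      rw [this]
      have h3 : 0 < (N + 1) ^ 3 := by positivity
      nlinarith
    have e2 : 9 * (N + 1) ^ 3 * Y ≤ R * Y := Nat.mul_le_mul_right _ (e1.trans hR)
    have e3 : 1 * Y ≤ (N + 1) ^ 3 * Y := Nat.mul_le_mul_right _ (Nat.one_le_pow _ _ (by omega))
    rw [hL]
    nlinarith
  · have hc1 : (fun θ => conj (κ * P θ)) ∈ TP (Set.Icc (-(L : ℤ)) (-(X : ℤ))) := TP_conj (TP_smul κ hP)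
    have hc2 : (fun θ => 1 + ((1 / 2 : ℂ) * (κ * P θ) + (1 / 2 : ℂ) * conj (κ * P θ))) ∈
        TP (Set.Icc (-(L : ℤ)) (L : ℤ)) := by
      refine TP_add (TP_Icc_mono (by simp) (by simp) (TP_const 1)) (TP_add ?_ ?_)
      · exact TP_smul _ (TP_Icc_mono (by omega) le_rfl (TP_smul κ hP))
      · exact TP_smul _ (TP_Icc_mono le_rfl (by omega) hc1)
    have hc3 := TP_mul hμ hc2
    have heq : (fun θ => ((μ θ * (1 + (κ * P θ).re) : ℝ) : ℂ)) = fun θ => (μ θ : ℂ) *
        (1 + ((1 / 2 : ℂ) * (κ * P θ) + (1 / 2 : ℂ) * conj (κ * P θ))) := by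
      ext θ
      push_cast
      congr 2
      rw [← mul_add, Complex.add_conj]
      push_cast; ring
    rw [heq]
    refine TP_Icc_mono ?_ ?_ hc3
    · push_cast; linarith
    · push_cast; linarith
  · intro θ
    have := neg_abs_le ((κ * P θ).re)
    exact mul_nonneg (h0 θ) (by linarith [hρ1 θ])
  · have hz1 : ∫ θ in (0:ℝ)..(2 * Real.pi), μ θ * (κ * P θ).re = 0 := by
      have h2 := TP_int_zero (TP_mul hμ (TP_smul κ hP)) (Or.inl (by
        have : (d : ℤ) < X := by exact_mod_cast hdX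
        linarith))
      have h3 := int_re (f := fun θ => (μ θ : ℂ) * (κ * P θ))
        ((Complex.continuous_ofReal.comp hμc).mul (continuous_const.mul hPc))
      rw [h2] at h3
      simpa using h3
    have h2 : ∀ θ, μ θ * (1 + (κ * P θ).re) = μ θ + μ θ * (κ * P θ).re := by intro θ; ring
    simp_rw [h2]
    have j1 : IntervalIntegrable (fun θ => μ θ * (κ * P θ).re) volume 0 (2 * Real.pi) :=
      (hμc.mul hκPc).intervalIntegrable _ _
    have j0 : IntervalIntegrable (fun θ => μ θ) volume 0 (2 * Real.pi) := hμc.intervalIntegrable _ _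
    rw [intervalIntegral.integral_add j0 j1, h1, hz1, add_zero]
  · -- the gain
    have hTc : Continuous (fun θ => (κ * SB N A θ).re) :=
      Complex.continuous_re.comp (continuous_const.mul hSAc)
    have e1 : ∀ θ, μ θ * (1 + (κ * P θ).re) * (κ * SB N A θ).re =
        μ θ * (κ * SB N A θ).re + μ θ * ((κ * P θ).re * (κ * SB N A θ).re) := by intro θ; ring
    simp_rw [e1]
    have j1 : IntervalIntegrable (fun θ => μ θ * (κ * SB N A θ).re) volume 0 (2 * Real.pi) :=
      (hμc.mul hTc).intervalIntegrable _ _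
    have j2 : IntervalIntegrable (fun θ => μ θ * ((κ * P θ).re * (κ * SB N A θ).re)) volume 0 (2 * Real.pi) :=
      (hμc.mul (hκPc.mul hTc)).intervalIntegrable _ _
    rw [intervalIntegral.integral_add j1 j2]
    refine add_le_add le_rfl ?_
    -- split `A`
    set Z := zone A R X Y with hZ
    set E := A.filter (fun a => ¬ (X ≤ a ∧ a < Y) ∧ ¬ ((a < X ∧ X ≤ R * a) ∨ (Y ≤ a ∧ a < R * Y))) with hE
    have hsplit : ∀ θ, (κ * SB N A θ).re = (κ * SB N B θ).re + (∑ a ∈ Z, (κ * G N ((a : ℝ) * θ)).re) +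
        ∑ a ∈ E, (κ * G N ((a : ℝ) * θ)).re := by
      intro θ
      have hA1 : A = B ∪ (Z ∪ E) := by
        ext a
        simp only [hB, hZ, hE, blk, zone, Finset.mem_union, Finset.mem_filter]
        tauto
      have hd1 : Disjoint B (Z ∪ E) := by
        rw [Finset.disjoint_left]
        intro a ha hb
        simp only [hB, hZ, hE, blk, zone, Finset.mem_union, Finset.mem_filter] at ha hb
        omega
      have hd2 : Disjoint Z E := by
        rw [Finset.disjoint_left]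
        intro a ha hb
        simp only [hZ, hE, zone, Finset.mem_filter] at ha hb
        tauto
      unfold SB
      conv_lhs => rw [hA1]
      rw [Finset.sum_union hd1, Finset.sum_union hd2, mul_add, mul_add, Complex.add_re, Complex.add_re,
        Finset.mul_sum, Finset.mul_sum, Finset.mul_sum, Complex.re_sum, Complex.re_sum, Complex.re_sum]
      ring
    have hGc : ∀ a : ℕ, Continuous (fun θ : ℝ => (κ * G N ((a : ℝ) * θ)).re) := fun a =>
      Complex.continuous_re.comp (continuous_const.mul ((G_cont N).comp (continuous_const.mul continuous_id)))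
    have hSBc : Continuous (fun θ => (κ * SB N B θ).re) :=
      Complex.continuous_re.comp (continuous_const.mul (TP_cont (SB_TP (N := N) hBX)))
    have e2 : ∀ θ, μ θ * ((κ * P θ).re * (κ * SB N A θ).re) =
        μ θ * ((κ * P θ).re * (κ * SB N B θ).re) +
        (∑ a ∈ Z, μ θ * ((κ * P θ).re * (κ * G N ((a : ℝ) * θ)).re)) +
        ∑ a ∈ E, μ θ * ((κ * P θ).re * (κ * G N ((a : ℝ) * θ)).re) := by
      intro θ
      rw [hsplit, ← Finset.mul_sum, ← Finset.mul_sum, ← Finset.mul_sum, ← Finset.mul_sum]; ring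
    simp_rw [e2]
    have i1 : IntervalIntegrable (fun θ => μ θ * ((κ * P θ).re * (κ * SB N B θ).re)) volume 0 (2 * Real.pi) :=
      (hμc.mul (hκPc.mul hSBc)).intervalIntegrable _ _
    have i2 : ∀ a : ℕ, IntervalIntegrable (fun θ => μ θ * ((κ * P θ).re * (κ * G N ((a : ℝ) * θ)).re))
        volume 0 (2 * Real.pi) := fun a => (hμc.mul (hκPc.mul (hGc a))).intervalIntegrable _ _
    have i3 : ∀ s : Finset ℕ, IntervalIntegrable (fun θ => ∑ a ∈ s, μ θ * ((κ * P θ).re *
        (κ * G N ((a : ℝ) * θ)).re)) volume 0 (2 * Real.pi) := fun s =>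
      (continuous_finsetSum _ (fun a _ => (hμc.mul (hκPc.mul (hGc a))))).intervalIntegrable _ _
    have i4 : IntervalIntegrable (fun θ => μ θ * ((κ * P θ).re * (κ * SB N B θ).re) +
        ∑ a ∈ Z, μ θ * ((κ * P θ).re * (κ * G N ((a : ℝ) * θ)).re)) volume 0 (2 * Real.pi) := i1.add (i3 Z)
    rw [intervalIntegral.integral_add i4 (i3 E), intervalIntegral.integral_add i1 (i3 Z),
      intervalIntegral.integral_finsetSum (fun a _ => i2 a),
      intervalIntegral.integral_finsetSum (fun a _ => i2 a)]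
    -- block part
    have f1 : 2 * Real.pi * ((B.card : ℝ) / 8) ≤
        ∫ θ in (0:ℝ)..(2 * Real.pi), μ θ * ((κ * P θ).re * (κ * SB N B θ).re) := by
      have g1 := int_re_re hμ hP (SB_TP (N := N) hBX) (by
        have : (d : ℤ) < X := by exact_mod_cast hdX
        linarith) hκ
      have g2 := int_re_re hμ hP (SB_TP (N := N) hBX) (by
        have : (d : ℤ) < X := by exact_mod_cast hdX
        linarith) (κ := 1) (by simp)
      rw [g1, ← g2]
      simpa using hcore'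
    -- far part
    have f2 : ∀ a ∈ E, ∫ θ in (0:ℝ)..(2 * Real.pi),
        μ θ * ((κ * P θ).re * (κ * G N ((a : ℝ) * θ)).re) = 0 := by
      intro a ha
      have haA : a ∈ A := (Finset.mem_filter.1 ha).1
      have hcond := (Finset.mem_filter.1 ha).2
      have ha0 := hA a haA
      have g1 := int_re_re hμ hP (TP_G N a) (by
        have : (d : ℤ) < X := by exact_mod_cast hdX
        have : (0 : ℤ) < a := by exact_mod_cast ha0
        linarith) hκ
      rw [g1]
      have g2 : ∫ θ in (0:ℝ)..(2 * Real.pi), (μ θ : ℂ) * (P θ * conj (G N ((a : ℝ) * θ))) = 0 := by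
        refine TP_int_zero (TP_mul hμ (TP_mul hP (TP_conj (TP_G N a)))) ?_
        rcases Nat.lt_or_ge a X with hlt | hge
        · left
          have hRa : R * a < X := by
            by_contra hcon
            exact hcond.2 (Or.inl ⟨hlt, not_lt.1 hcon⟩)
          have hRN : 2 * (N + 1) ≤ R := by
            refine le_trans ?_ hR
            have : (N + 1) ^ 4 = (N + 1) * (N + 1) ^ 3 := by ring
            rw [this]
            have h3 : 0 < (N + 1) ^ 3 := by positivity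
            nlinarith
          have h4 : N * a + d < X := by nlinarith
          have h5 : ((N * a + d : ℕ) : ℤ) < X := by exact_mod_cast h4
          push_cast at h5
          linarith
        · right
          have haY : Y ≤ a := by
            by_contra hcon
            exact hcond.1 ⟨hge, not_le.1 hcon⟩
          have haRY : R * Y ≤ a := by
            by_contra hcon
            exact hcond.2 (Or.inr ⟨haY, not_le.1 hcon⟩)
          have h4 : d + L < R * Y := by
            have hYd : d < Y := lt_of_lt_of_le hdX hXY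
            have e1 : 9 * (N + 1) ^ 3 ≤ 16 * (N + 1) ^ 4 := by
              have : (N + 1) ^ 4 = (N + 1) ^ 3 * (N + 1) := by ring
              rw [this]
              have h3 : 0 < (N + 1) ^ 3 := by positivity
              nlinarith
            have e2 : 9 * (N + 1) ^ 3 * Y ≤ R * Y := Nat.mul_le_mul_right _ (e1.trans hR)
            have e3 : 1 * Y ≤ (N + 1) ^ 3 * Y := Nat.mul_le_mul_right _ (Nat.one_le_pow _ _ (by omega))
            rw [hL]
            nlinarith
          have h5 : ((d + L : ℕ) : ℤ) < a := by exact_mod_cast lt_of_lt_of_le h4 haRY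
          push_cast at h5 ⊢
          linarith
      rw [g2]; simp
    -- zone part
    have f3 : ∀ a ∈ Z, -(Real.pi * (1 + 2 * Real.log N)) ≤ ∫ θ in (0:ℝ)..(2 * Real.pi),
        μ θ * ((κ * P θ).re * (κ * G N ((a : ℝ) * θ)).re) := by
      intro a ha
      rw [hZ, zone, Finset.mem_filter] at ha
      obtain ⟨haA, hcond⟩ := ha
      have ha0 := hA a haA
      have had : d < a := by
        rcases hcond with ⟨_, h⟩ | ⟨h, _⟩
        · by_contra hcon
          have : R * a ≤ R * d := Nat.mul_le_mul_left _ (not_lt.1 hcon)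
          omega
        · omega
      have g1 := equi (a := a) hμ (by exact_mod_cast had) ha0
        (ψ := fun φ => ((‖G N φ‖ : ℝ) : ℂ)) (Complex.continuous_ofReal.comp (G_cont N).norm)
        (by intro φ; simp only; rw [G_periodic N φ])
      have g2 : ∫ θ in (0:ℝ)..(2 * Real.pi), μ θ * ‖G N ((a : ℝ) * θ)‖ =
          ∫ θ in (0:ℝ)..(2 * Real.pi), ‖G N θ‖ := by
        have h4 : ∫ θ in (0:ℝ)..(2 * Real.pi), μ θ * ‖G N ((a : ℝ) * θ)‖ =
            (2 * Real.pi)⁻¹ * (∫ θ in (0:ℝ)..(2 * Real.pi), μ θ) *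
              ∫ θ in (0:ℝ)..(2 * Real.pi), ‖G N θ‖ := by
          have h5 : ((∫ θ in (0:ℝ)..(2 * Real.pi), μ θ * ‖G N ((a : ℝ) * θ)‖ : ℝ) : ℂ) =
              (((2 * Real.pi)⁻¹ * (∫ θ in (0:ℝ)..(2 * Real.pi), μ θ) *
              ∫ θ in (0:ℝ)..(2 * Real.pi), ‖G N θ‖ : ℝ) : ℂ) := by
            push_cast [← intervalIntegral.integral_ofReal]
            simpa using g1
          exact_mod_cast h5
        rw [h4, h1, inv_mul_cancel₀ (by positivity), one_mul]
      have g3 : ∫ θ in (0:ℝ)..(2 * Real.pi), ‖G N θ‖ ≤ Real.pi * (1 + 2 * Real.log N) :=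
        int_log (G_cont N).norm hN0 (G_norm_le N hN0) (fun x hx => G_norm_le_sin N hN0 hx)
      have hGac : Continuous (fun θ : ℝ => ‖G N ((a : ℝ) * θ)‖) :=
        ((G_cont N).comp (continuous_const.mul continuous_id)).norm
      have g4 : ∫ θ in (0:ℝ)..(2 * Real.pi), -(μ θ * ‖G N ((a : ℝ) * θ)‖) ≤
          ∫ θ in (0:ℝ)..(2 * Real.pi), μ θ * ((κ * P θ).re * (κ * G N ((a : ℝ) * θ)).re) := by
        apply intervalIntegral.integral_mono_on (by positivity)
        · exact (hμc.mul hGac).neg.intervalIntegrable _ _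
        · exact i2 a
        · intro θ _
          have k1 : |(κ * G N ((a : ℝ) * θ)).re| ≤ ‖G N ((a : ℝ) * θ)‖ := by
            refine (Complex.abs_re_le_norm _).trans ?_
            rw [norm_mul, hκ, one_mul]
          have k2 : |(κ * P θ).re * (κ * G N ((a : ℝ) * θ)).re| ≤ ‖G N ((a : ℝ) * θ)‖ := by
            rw [abs_mul]
            calc |(κ * P θ).re| * |(κ * G N ((a : ℝ) * θ)).re| ≤ 1 * ‖G N ((a : ℝ) * θ)‖ :=
                  mul_le_mul (hρ1 θ) k1 (abs_nonneg _) zero_le_one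
              _ = _ := one_mul _
          have k3 := neg_abs_le ((κ * P θ).re * (κ * G N ((a : ℝ) * θ)).re)
          rw [← mul_neg]
          exact mul_le_mul_of_nonneg_left (by linarith) (h0 θ)
      rw [intervalIntegral.integral_neg, g2] at g4
      linarith
    have f4 : -((Z.card : ℝ) * (Real.pi * (1 + 2 * Real.log N))) ≤ ∑ a ∈ Z, ∫ θ in (0:ℝ)..(2 * Real.pi),
        μ θ * ((κ * P θ).re * (κ * G N ((a : ℝ) * θ)).re) := by
      have := Finset.sum_le_sum f3
      simpa using this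
    rw [Finset.sum_eq_zero f2]
    have hlog : 0 ≤ Real.log N := Real.log_natCast_nonneg N
    have hz' : (Z.card : ℝ) * (Real.pi * (1 + 2 * Real.log N)) ≤ 2 * Real.pi * ((B.card : ℝ) / 16) := by
      have h5 : (Z.card : ℝ) * (Real.pi * (1 + 2 * Real.log N)) ≤
          2 * Real.pi * ((Z.card : ℝ) * (1 + Real.log N)) := by
        have : (0:ℝ) ≤ (Z.card : ℝ) * Real.pi := by positivity
        nlinarith
      refine h5.trans ?_
      exact mul_le_mul_of_nonneg_left hz (by positivity)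
    linarith [f1, f4, hz']

/-- the data of the runs -/
lemma iter {N : ℕ} {A : Finset ℕ} (hA : ∀ a ∈ A, 0 < a) {R : ℕ} (hR : 16 * (N + 1) ^ 4 ≤ R)
    {κ : ℂ} (hκ : ‖κ‖ = 1) (K : ℕ) (X Y : ℕ → ℕ)
    (h : ∀ k < K, 0 < X k ∧ X k ≤ Y k ∧ (blk A (X k) (Y k)).Nonempty ∧
      500 * (blk A (X k) (Y k)).card ≤ N ∧
      ((zone A R (X k) (Y k)).card : ℝ) * (1 + Real.log N) ≤ ((blk A (X k) (Y k)).card : ℝ) / 16)
    (hsep : ∀ k, k + 1 < K → R * R * Y k ≤ X (k + 1)) :
    ∃ (d : ℕ) (μ : ℝ → ℝ), ((K = 0 ∧ d = 0) ∨ (0 < K ∧ d < R * Y (K - 1))) ∧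
      (fun θ => (μ θ : ℂ)) ∈ TP (Set.Icc (-(d : ℤ)) d) ∧
      (∀ θ, 0 ≤ μ θ) ∧ (∫ θ in (0:ℝ)..(2 * Real.pi), μ θ) = 2 * Real.pi ∧
      2 * Real.pi * (∑ k ∈ Finset.range K, ((blk A (X k) (Y k)).card : ℝ) / 16) ≤
      ∫ θ in (0:ℝ)..(2 * Real.pi), μ θ * (κ * SB N A θ).re := by
  have hR1 : 1 ≤ R := le_trans (by nlinarith [Nat.one_le_pow 4 (N+1) (by omega)]) hR
  induction K with
  | zero =>
    refine ⟨0, fun _ => 1, Or.inl ⟨rfl, rfl⟩, ?_, fun _ => zero_le_one, ?_, ?_⟩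
    · simpa using TP_const 1
    · simp
    · have h1 : (fun θ => κ * SB N A θ) ∈ TP (Set.Icc (1 : ℤ) ((N : ℤ) * ((A.sup id + 1 : ℕ) : ℤ))) := by
        refine TP_smul κ (SB_TP (X := 1) ?_)
        intro b hb
        exact ⟨hA b hb, Nat.lt_succ_of_le (Finset.le_sup (f := id) hb)⟩
      have h2 := TP_int_zero h1 (Or.inl one_pos)
      have h3 := int_re (TP_cont h1)
      rw [h2] at h3
      simp only [Finset.range_zero, Finset.sum_empty, mul_zero, one_mul]
      rw [h3]; simp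
  | succ K ih =>
    obtain ⟨d, μ, hd, hμ, h0, h1, h2⟩ := ih (fun k hk => h k (by omega)) (fun k hk => hsep k (by omega))
    obtain ⟨k1, k2, k3, k4, k5⟩ := h K (by omega)
    have hdX : R * d < X K := by
      rcases hd with ⟨_, rfl⟩ | ⟨hK, hd⟩
      · simpa using k1
      · have h3 := hsep (K - 1) (by omega)
        have h4 : K - 1 + 1 = K := by omega
        rw [h4] at h3
        refine lt_of_lt_of_le ?_ h3
        rw [mul_assoc]
        exact Nat.mul_lt_mul_of_pos_left hd (by omega)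
    obtain ⟨d', μ', g1, g2, g3, g4, g5⟩ := step hA hR k1 k2 k3 k4 k5 hκ hμ hdX h0 h1
    refine ⟨d', μ', Or.inr ⟨by omega, by simpa using g1⟩, g2, g3, g4, ?_⟩
    rw [Finset.sum_range_succ, mul_add]
    linarith

/-- from the density to a point -/
lemma exists_point {N : ℕ} (hN : 0 < N) {A : Finset ℕ} (hA : ∀ a ∈ A, 0 < a) {κ : ℂ}
    {μ : ℝ → ℝ} (hμc : Continuous μ) (h0 : ∀ θ, 0 ≤ μ θ)
    (h1 : (∫ θ in (0:ℝ)..(2 * Real.pi), μ θ) = 2 * Real.pi) {s : ℝ}
    (h2 : 2 * Real.pi * s ≤ ∫ θ in (0:ℝ)..(2 * Real.pi), μ θ * (κ * SB N A θ).re) :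
    ∃ θ : ℝ, s ≤ (κ * SB N A θ).re := by
  have hSAc : Continuous (SB N A) := by
    unfold SB
    exact continuous_finsetSum _ (fun b _ => (G_cont N).comp (continuous_const.mul continuous_id))
  have hTc : Continuous (fun θ => (κ * SB N A θ).re) :=
    Complex.continuous_re.comp (continuous_const.mul hSAc)
  obtain ⟨θ, hθ, hmax⟩ := isCompact_Icc.exists_isMaxOn (Set.nonempty_Icc.2
    (by positivity : (0:ℝ) ≤ 2 * Real.pi)) hTc.continuousOn
  refine ⟨θ, ?_⟩
  have h3 : ∫ θ' in (0:ℝ)..(2 * Real.pi), μ θ' * (κ * SB N A θ').re ≤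
      ∫ θ' in (0:ℝ)..(2 * Real.pi), μ θ' * (κ * SB N A θ).re := by
    apply intervalIntegral.integral_mono_on (by positivity)
    · exact (hμc.mul hTc).intervalIntegrable _ _
    · exact (hμc.mul continuous_const).intervalIntegrable _ _
    · intro x hx
      exact mul_le_mul_of_nonneg_left (hmax hx) (h0 x)
  rw [intervalIntegral.integral_mul_const, h1] at h3
  have h4 := h2.trans h3
  exact le_of_mul_le_mul_left h4 (by positivity)

/-- the exponential sum of `A` -/
def fA (A : Finset ℕ) (θ : ℝ) : ℂ := ∑ a ∈ A, chr (a : ℤ) θ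

lemma SB_eq (N : ℕ) (A : Finset ℕ) (θ : ℝ) :
    SB N A θ = ∑ j ∈ Finset.Ico 1 N, ((1 - (j : ℝ) / N : ℝ) : ℂ) * fA A ((j : ℝ) * θ) := by
  unfold SB G fA
  rw [Finset.sum_comm]
  refine Finset.sum_congr rfl (fun j _ => ?_)
  rw [Finset.mul_sum]
  refine Finset.sum_congr rfl (fun a _ => ?_)
  congr 1
  unfold chr
  congr 1
  push_cast; ring

lemma exists_multiple {N : ℕ} (hN : 0 < N) {A : Finset ℕ} {κ : ℂ} {s θ : ℝ} (hs : 0 < s)
    (h : s ≤ (κ * SB N A θ).re) : ∃ θ' : ℝ, 2 * s / N ≤ (κ * fA A θ').re := by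
  by_contra hcon
  push Not at hcon
  have h1 : (κ * SB N A θ).re = ∑ j ∈ Finset.Ico 1 N, (1 - (j : ℝ) / N) * (κ * fA A ((j : ℝ) * θ)).re := by
    rw [SB_eq, Finset.mul_sum, Complex.re_sum]
    refine Finset.sum_congr rfl (fun j _ => ?_)
    have : κ * (((1 - (j : ℝ) / N : ℝ) : ℂ) * fA A ((j : ℝ) * θ)) =
        ((1 - (j : ℝ) / N : ℝ) : ℂ) * (κ * fA A ((j : ℝ) * θ)) := by ring
    rw [this, Complex.re_ofReal_mul]
  have hN' : (0 : ℝ) < N := by exact_mod_cast hN
  have h2 : (κ * SB N A θ).re ≤ ∑ j ∈ Finset.Ico 1 N, (1 - (j : ℝ) / N) * (2 * s / N) := by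
    rw [h1]
    refine Finset.sum_le_sum (fun j hj => ?_)
    have hj' := Finset.mem_Ico.1 hj
    have h3 : (0:ℝ) ≤ 1 - (j : ℝ) / N := by
      rw [sub_nonneg, div_le_one hN']
      exact_mod_cast hj'.2.le
    exact mul_le_mul_of_nonneg_left (hcon _).le h3
  have h4 : ∑ j ∈ Finset.Ico 1 N, (1 - (j : ℝ) / N) = ((N : ℝ) - 1) / 2 := by
    have h5 : ∀ n : ℕ, 0 < n → ∑ j ∈ Finset.Ico 1 n, (j : ℝ) = (n : ℝ) * (n - 1) / 2 := by
      intro n hn
      induction n with
      | zero => omega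
      | succ n ih =>
        rcases Nat.eq_zero_or_pos n with rfl | hn'
        · simp
        · rw [Finset.sum_Ico_succ_top (by omega), ih hn']; push_cast; ring
    rw [Finset.sum_sub_distrib, ← Finset.sum_div, h5 N hN]
    simp
    rw [Nat.cast_sub (by omega)]
    field_simp
    push_cast
    ring
  rw [← Finset.sum_mul, h4] at h2
  have h6 : ((N : ℝ) - 1) / 2 * (2 * s / N) < s := by
    rw [div_mul_div_comm, div_lt_iff₀ (by positivity)]
    nlinarith
  linarith

lemma log_pow_two (q : ℕ) (hq : 0 < q) (a : ℕ) (ha : 0 < a) : Nat.log (2 ^ q) a = Nat.log 2 a / q := by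
  apply Nat.log_eq_of_pow_le_of_lt_pow
  · rw [← pow_mul]
    calc 2 ^ (q * (Nat.log 2 a / q)) ≤ 2 ^ (Nat.log 2 a) :=
          Nat.pow_le_pow_right (by norm_num) (Nat.mul_div_le _ _)
      _ ≤ a := Nat.pow_log_le_self 2 ha.ne'
  · rw [← pow_mul]
    calc a < 2 ^ (Nat.log 2 a + 1) := Nat.lt_pow_succ_log_self (by norm_num) a
      _ ≤ 2 ^ (q * (Nat.log 2 a / q + 1)) :=
          Nat.pow_le_pow_right (by norm_num) (Nat.lt_mul_div_succ _ hq)

lemma dyadic_le (A : Finset ℕ) (hA : ∀ a ∈ A, 0 < a) (q : ℕ) (hq : 0 < q) :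
    dyadicCount A ≤ q * (A.image (Nat.log (2 ^ q))).card := by
  unfold dyadicCount
  have h1 : A.image (Nat.log (2 ^ q)) = (A.image (fun a => Nat.log 2 a)).image (fun i => i / q) := by
    rw [Finset.image_image]
    apply Finset.image_congr
    intro a ha
    exact log_pow_two q hq a (hA a ha)
  rw [h1]
  apply Finset.card_le_mul_card_image
  intro b _
  have : (Finset.filter (fun x => x / q = b) (A.image (fun a => Nat.log 2 a))) ⊆
      Finset.Ico (b * q) (b * q + q) := by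
    intro x hx
    rw [Finset.mem_filter] at hx
    rw [Finset.mem_Ico]
    have h2 := Nat.div_add_mod x q
    have h3 := Nat.mod_lt x hq
    rw [hx.2] at h2
    have h4 := mul_comm q b
    constructor <;> omega
  calc _ ≤ _ := Finset.card_le_card this
    _ = q := by simp

lemma blk_step (A : Finset ℕ) (hA : ∀ a ∈ A, 0 < a) (Q : ℕ) (j t : ℕ) (hQ : 1 < Q) :
    (blk A (Q ^ (j - t)) (Q ^ (j + t + 1))).card + (zone A Q (Q ^ (j - t)) (Q ^ (j + t + 1))).card ≤
      (blk A (Q ^ (j - (t + 1))) (Q ^ (j + (t + 1) + 1))).card := by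
  have hlt : Q ^ (j - t) < Q ^ (j + t + 1) := Nat.pow_lt_pow_right hQ (by omega)
  have hd : Disjoint (blk A (Q ^ (j - t)) (Q ^ (j + t + 1))) (zone A Q (Q ^ (j - t)) (Q ^ (j + t + 1))) := by
    rw [Finset.disjoint_left]
    intro a ha hb
    unfold blk at ha
    unfold zone at hb
    rw [Finset.mem_filter] at ha hb
    omega
  rw [← Finset.card_union_of_disjoint hd]
  apply Finset.card_le_card
  have hle1 : Q ^ (j - (t + 1)) ≤ Q ^ (j - t) := Nat.pow_le_pow_right (by omega) (by omega)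
  have heq2 : Q ^ (j + (t + 1) + 1) = Q * Q ^ (j + t + 1) := by
    rw [← pow_succ']
    congr 1
  have hle2 : Q ^ (j + t + 1) ≤ Q * Q ^ (j + t + 1) := Nat.le_mul_of_pos_left _ (by omega)
  intro a ha
  rw [Finset.mem_union] at ha
  unfold blk zone at *
  simp only [Finset.mem_filter] at ha ⊢
  rw [heq2]
  rcases ha with ⟨ha, h1, h2⟩ | ⟨ha, h | h⟩
  · exact ⟨ha, by omega, by omega⟩
  · refine ⟨ha, ?_, by omega⟩
    by_cases hjt : j - t = 0
    · rw [hjt, pow_zero] at h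
      have := hA a ha
      omega
    · have h3 : Q ^ (j - t) = Q * Q ^ (j - (t + 1)) := by
        rw [← pow_succ']
        congr 1
        omega
      rw [h3] at h
      exact Nat.le_of_mul_le_mul_left h.2 (by omega)
  · exact ⟨ha, by omega, h.2⟩

lemma growth (s L : ℕ) (hs : 0 < s) : 2 ^ L * s ^ (s * L) ≤ (s + 1) ^ (s * L) := by
  have h0 : ∀ n : ℕ, s ^ n * (s + n) ≤ s * (s + 1) ^ n := by
    intro n
    induction n with
    | zero => simp
    | succ n ih =>
      calc s ^ (n + 1) * (s + (n + 1)) ≤ (s + 1) * (s ^ n * (s + n)) := by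
            rw [pow_succ]
            have : 0 ≤ s ^ n * n := Nat.zero_le _
            nlinarith
        _ ≤ (s + 1) * (s * (s + 1) ^ n) := Nat.mul_le_mul_left _ ih
        _ = s * (s + 1) ^ (n + 1) := by ring
  have h1 : 2 * s ^ s ≤ (s + 1) ^ s := by
    have h := h0 s
    have h' : s * (2 * s ^ s) ≤ s * (s + 1) ^ s := by
      calc s * (2 * s ^ s) = s ^ s * (s + s) := by ring
        _ ≤ _ := h
    exact Nat.le_of_mul_le_mul_left h' hs
  rw [pow_mul, pow_mul, ← mul_pow]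
  exact Nat.pow_le_pow_left h1 L

/-- `L` stands for `Nat.log 2 A.card + 1`, `s` for `16 (8 + L)`, `Q` for `2 ^ (44 + 4 L)`. -/
lemma selection (A : Finset ℕ) (hA : ∀ a ∈ A, 0 < a) (hn : 2 ≤ A.card) (L s Q : ℕ)
    (hL : L = Nat.log 2 A.card + 1) (hs : s = 16 * (8 + L)) (hQ : Q = 2 ^ (44 + 4 * L)) :
    ∃ (l K : ℕ) (X Y : ℕ → ℕ), l < L ∧
      (∀ k < K, 0 < X k ∧ X k < Y k ∧ 2 ^ l ≤ (blk A (X k) (Y k)).card ∧
        (blk A (X k) (Y k)).card < 2 ^ (l + 1) ∧
        s * (zone A Q (X k) (Y k)).card ≤ (blk A (X k) (Y k)).card) ∧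
      (∀ k, k + 1 < K → Q * Q * Y k ≤ X (k + 1)) ∧
      dyadicCount A ≤ (44 + 4 * L) * (L * (2 * (s * L) + 4)) * K := by
  classical
  have hLpos : 0 < L := by omega
  have hspos : 0 < s := by omega
  set q := 44 + 4 * L with hq
  have hqpos : 0 < q := by omega
  have hQ1 : 1 < Q := by
    rw [hQ]
    exact Nat.one_lt_two_pow (by omega)
  have hAcard : A.card < 2 ^ L := by
    rw [hL]
    exact Nat.lt_pow_succ_log_self (by norm_num) _
  set T := s * L with hT
  set C := A.image (Nat.log Q) with hC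
  set F : ℕ → ℕ → ℕ := fun j t => (blk A (Q ^ (j - t)) (Q ^ (j + t + 1))).card with hF
  have hFle : ∀ j t, F j t ≤ A.card := fun j t => Finset.card_le_card (Finset.filter_subset _ _)
  have hF0 : ∀ j ∈ C, ∀ t, 1 ≤ F j t := by
    intro j hj t
    rw [hC, Finset.mem_image] at hj
    obtain ⟨a, ha, hja⟩ := hj
    rw [hF]
    simp only
    rw [Nat.one_le_iff_ne_zero, ← Nat.pos_iff_ne_zero, Finset.card_pos]
    refine ⟨a, ?_⟩
    unfold blk
    rw [Finset.mem_filter]
    have h1 := Nat.pow_log_le_self Q (hA a ha).ne'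
    have h2 := Nat.lt_pow_succ_log_self hQ1 a
    rw [hja] at h1 h2
    refine ⟨ha, le_trans (Nat.pow_le_pow_right (by omega) (by omega)) h1,
      lt_of_lt_of_le h2 (Nat.pow_le_pow_right (by omega) (by omega))⟩
  have hgrow : ∀ j ∈ C, ∃ t < T, s * (zone A Q (Q ^ (j - t)) (Q ^ (j + t + 1))).card ≤ F j t := by
    intro j hj
    by_contra hcon
    push Not at hcon
    have hind : ∀ t ≤ T, (s + 1) ^ t ≤ s ^ t * F j t := by
      intro t
      induction t with
      | zero => intro _; simpa using hF0 j hj 0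
      | succ t ih =>
        intro ht
        have h1 := ih (by omega)
        have h2 := hcon t (by omega)
        have h3 := blk_step A hA Q j t hQ1
        have h4 : (s + 1) * F j t ≤ s * F j (t + 1) := by
          have h5 : s * (F j t + (zone A Q (Q ^ (j - t)) (Q ^ (j + t + 1))).card) ≤ s * F j (t + 1) :=
            Nat.mul_le_mul_left _ h3
          rw [mul_add] at h5
          rw [add_mul, one_mul]
          omega
        calc (s + 1) ^ (t + 1) = (s + 1) * (s + 1) ^ t := pow_succ' _ _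
          _ ≤ (s + 1) * (s ^ t * F j t) := Nat.mul_le_mul_left _ h1
          _ = s ^ t * ((s + 1) * F j t) := by ring
          _ ≤ s ^ t * (s * F j (t + 1)) := Nat.mul_le_mul_left _ h4
          _ = s ^ (t + 1) * F j (t + 1) := by ring
    have h6 := hind T le_rfl
    have h7 := growth s L hspos
    rw [← hT] at h7
    have h8 : s ^ T * 2 ^ L ≤ s ^ T * F j T := by
      calc s ^ T * 2 ^ L = 2 ^ L * s ^ T := mul_comm _ _
        _ ≤ _ := h7
        _ ≤ _ := h6
    have h9 := Nat.le_of_mul_le_mul_left h8 (pow_pos hspos _)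
    have h10 := hFle j T
    omega
  choose! t ht hzt using hgrow
  -- colours
  set col : ℕ → ℕ × ℕ := fun j => (Nat.log 2 (F j (t j)), j % (2 * T + 4)) with hcol
  set Cs : Finset (ℕ × ℕ) := Finset.range L ×ˢ Finset.range (2 * T + 4) with hCs
  have hmaps : ∀ j ∈ C, col j ∈ Cs := by
    intro j hj
    rw [hCs, Finset.mem_product, Finset.mem_range, Finset.mem_range]
    refine ⟨?_, Nat.mod_lt _ (by omega)⟩
    calc Nat.log 2 (F j (t j)) ≤ Nat.log 2 A.card := Nat.log_mono_right (hFle _ _)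
      _ < L := by omega
  have hne : Cs.Nonempty := ⟨(0, 0), by
    rw [hCs, Finset.mem_product, Finset.mem_range, Finset.mem_range]
    exact ⟨hLpos, by simp only; omega⟩⟩
  obtain ⟨c, hcCs, hcmax⟩ := Finset.exists_max_image Cs (fun c => (C.filter (fun j => col j = c)).card) hne
  have hCcard : C.card ≤ L * (2 * T + 4) * (C.filter (fun j => col j = c)).card := by
    rw [Finset.card_eq_sum_card_fiberwise hmaps]
    have h1 := Finset.sum_le_card_nsmul Cs (fun c => (C.filter (fun j => col j = c)).card)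
      ((C.filter (fun j => col j = c)).card) (fun b hb => hcmax b hb)
    have h2 : Cs.card = L * (2 * T + 4) := by
      rw [hCs, Finset.card_product, Finset.card_range, Finset.card_range]
    rw [smul_eq_mul, h2] at h1
    exact h1
  set S := C.filter (fun j => col j = c) with hS
  have hSC : ∀ j ∈ S, j ∈ C ∧ Nat.log 2 (F j (t j)) = c.1 ∧ j % (2 * T + 4) = c.2 := by
    intro j hj
    rw [hS, Finset.mem_filter] at hj
    refine ⟨hj.1, ?_, ?_⟩
    · rw [← hj.2]
    · rw [← hj.2]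
  set J : ℕ → ℕ := fun k => if h : k < S.card then S.orderEmbOfFin rfl ⟨k, h⟩ else 0 with hJ
  have hJm : ∀ k < S.card, J k ∈ S := by
    intro k hk
    rw [hJ]
    simp only [dif_pos hk]
    exact Finset.orderEmbOfFin_mem S rfl _
  have hJlt : ∀ k, k + 1 < S.card → J k < J (k + 1) := by
    intro k hk
    rw [hJ]
    simp only [dif_pos hk, dif_pos (show k < S.card by omega)]
    apply (S.orderEmbOfFin rfl).strictMono
    rw [Fin.mk_lt_mk]
    omega
  refine ⟨c.1, S.card, fun k => Q ^ (J k - t (J k)), fun k => Q ^ (J k + t (J k) + 1), ?_, ?_, ?_, ?_⟩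
  · rw [hCs, Finset.mem_product, Finset.mem_range] at hcCs
    exact hcCs.1
  · intro k hk
    obtain ⟨h1, h2, h3⟩ := hSC _ (hJm k hk)
    have hF1 := hF0 _ h1 (t (J k))
    refine ⟨pow_pos (by omega) _, Nat.pow_lt_pow_right hQ1 (by omega), ?_, ?_, hzt _ h1⟩
    · rw [← h2]
      exact Nat.pow_log_le_self 2 (by omega)
    · rw [← h2]
      exact Nat.lt_pow_succ_log_self (by norm_num) _
  · intro k hk
    obtain ⟨h1, -, h3⟩ := hSC _ (hJm k (by omega))
    obtain ⟨h1', -, h3'⟩ := hSC _ (hJm (k + 1) hk)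
    have hlt := hJlt k hk
    have ht1 := ht _ h1
    have ht2 := ht _ h1'
    have hgap : J k + (2 * T + 4) ≤ J (k + 1) := by
      have e1 := Nat.div_add_mod (J k) (2 * T + 4)
      have e2 := Nat.div_add_mod (J (k + 1)) (2 * T + 4)
      rw [h3] at e1
      rw [h3'] at e2
      have hdiv : J k / (2 * T + 4) < J (k + 1) / (2 * T + 4) := by
        by_contra hcon
        push Not at hcon
        have := Nat.mul_le_mul_left (2 * T + 4) hcon
        omega
      have := Nat.mul_le_mul_left (2 * T + 4) (Nat.succ_le_of_lt hdiv)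
      rw [Nat.succ_eq_add_one, mul_add, mul_one] at this
      omega
    calc Q * Q * Q ^ (J k + t (J k) + 1) = Q ^ (J k + t (J k) + 3) := by ring
      _ ≤ Q ^ (J (k + 1) - t (J (k + 1))) := Nat.pow_le_pow_right (by omega) (by omega)
  · have h1 := dyadic_le A hA q hqpos
    rw [← hQ, ← hC] at h1
    calc dyadicCount A ≤ q * C.card := h1
      _ ≤ q * (L * (2 * T + 4) * S.card) := Nat.mul_le_mul_left _ hCcard
      _ = q * (L * (2 * T + 4)) * S.card := by ring


lemma log_thousand : Real.log 1000 ≤ 7 := by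
  rw [Real.log_le_iff_le_exp (by norm_num)]
  have h1 : (2.7 : ℝ) ≤ Real.exp 1 := by have := Real.exp_one_gt_d9; linarith
  have h2 : Real.exp 7 = Real.exp 1 ^ 7 := by rw [← Real.exp_nat_mul]; norm_num
  rw [h2]
  calc (1000 : ℝ) ≤ 2.7 ^ 7 := by norm_num
    _ ≤ _ := pow_le_pow_left₀ (by norm_num) h1 7

/-- main inequality in terms of `L = Nat.log 2 |A| + 1` -/
lemma main_L {A : Finset ℕ} (hA : ∀ a ∈ A, 0 < a) (hn : 2 ≤ A.card) {κ : ℂ} (hκ : ‖κ‖ = 1) {L : ℕ}
    (hL : L = Nat.log 2 A.card + 1) :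
    ∃ θ : ℝ, (dyadicCount A : ℝ) ≤ 33488000 * (L : ℝ) ^ 4 * (κ * fA A θ).re := by
  obtain ⟨l, K, X, Y, hl, hXY, hsep, hD⟩ := selection A hA hn L (16 * (8 + L)) (2 ^ (44 + 4 * L)) hL rfl rfl
  set N : ℕ := 1000 * 2 ^ l with hN
  have hN0 : 0 < N := by positivity
  have hL2 : 2 ≤ L := by
    rw [hL]
    have : 1 ≤ Nat.log 2 A.card := Nat.log_pos (by norm_num) hn
    omega
  have hR : 16 * (N + 1) ^ 4 ≤ 2 ^ (44 + 4 * L) := by
    have h1 : N + 1 ≤ 2 ^ (10 + l) := by
      rw [hN, pow_add]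
      have h9 : 1 ≤ 2 ^ l := Nat.one_le_two_pow
      have h10 : (2:ℕ) ^ 10 = 1024 := by norm_num
      rw [h10]; omega
    calc 16 * (N + 1) ^ 4 ≤ 16 * (2 ^ (10 + l)) ^ 4 := by gcongr
      _ = 2 ^ (44 + 4 * l) := by
          rw [← pow_mul, show (16:ℕ) = 2 ^ 4 by norm_num, ← pow_add]
          ring_nf
      _ ≤ 2 ^ (44 + 4 * L) := Nat.pow_le_pow_right (by norm_num) (by omega)
  have hlogN : 1 + Real.log N ≤ 8 + L := by
    have h1 : Real.log N = Real.log 1000 + l * Real.log 2 := by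
      rw [hN]; push_cast
      rw [Real.log_mul (by norm_num) (by positivity), Real.log_pow]
    have h2 : Real.log 2 ≤ 1 := by have := Real.log_two_lt_d9; linarith
    have h3 : (l : ℝ) ≤ L := by exact_mod_cast hl.le
    have h4 : (l : ℝ) * Real.log 2 ≤ L := by
      have := Real.log_nonneg (show (1:ℝ) ≤ 2 by norm_num)
      have h5 : (0:ℝ) ≤ l := by positivity
      nlinarith
    rw [h1]; linarith [log_thousand]
  have hcond : ∀ k < K, 0 < X k ∧ X k ≤ Y k ∧ (blk A (X k) (Y k)).Nonempty ∧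
      500 * (blk A (X k) (Y k)).card ≤ N ∧
      ((zone A (2 ^ (44 + 4 * L)) (X k) (Y k)).card : ℝ) * (1 + Real.log N) ≤
        ((blk A (X k) (Y k)).card : ℝ) / 16 := by
    intro k hk
    obtain ⟨h1, h2, h3, h4, h5⟩ := hXY k hk
    refine ⟨h1, h2.le, ?_, ?_, ?_⟩
    · rw [← Finset.card_pos]
      exact lt_of_lt_of_le (by positivity) h3
    · rw [hN]
      have : 2 ^ (l + 1) = 2 * 2 ^ l := by rw [pow_succ]; ring
      omega
    · have h6 : ((16 * (8 + L) * (zone A (2 ^ (44 + 4 * L)) (X k) (Y k)).card : ℕ) : ℝ) ≤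
          ((blk A (X k) (Y k)).card : ℝ) := by exact_mod_cast h5
      push_cast at h6
      have h7 : (0:ℝ) ≤ ((zone A (2 ^ (44 + 4 * L)) (X k) (Y k)).card : ℝ) := by positivity
      have h8 : ((zone A (2 ^ (44 + 4 * L)) (X k) (Y k)).card : ℝ) * (1 + Real.log N) ≤
          ((zone A (2 ^ (44 + 4 * L)) (X k) (Y k)).card : ℝ) * (8 + L) :=
        mul_le_mul_of_nonneg_left hlogN h7
      linarith
  obtain ⟨d, μ, -, hμ, h0, h1, h2⟩ := iter hA hR hκ K X Y hcond hsep
  have hμc : Continuous μ := by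
    have := TP_cont hμ
    exact (Complex.continuous_re.comp this).congr (fun θ => by simp)
  obtain ⟨θ, hθ⟩ := exists_point hN0 hA hμc h0 h1 h2
  have hDpos : 0 < dyadicCount A := by
    unfold dyadicCount
    rw [Finset.card_pos, Finset.image_nonempty]
    rw [← Finset.card_pos]; omega
  have hKpos : 0 < K := by
    rcases Nat.eq_zero_or_pos K with h | h
    · rw [h, mul_zero] at hD; omega
    · exact h
  have hS : (K : ℝ) * 2 ^ l / 16 ≤ ∑ k ∈ Finset.range K, ((blk A (X k) (Y k)).card : ℝ) / 16 := by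
    have h3 : ∑ k ∈ Finset.range K, ((2:ℝ) ^ l / 16) ≤
        ∑ k ∈ Finset.range K, ((blk A (X k) (Y k)).card : ℝ) / 16 := by
      refine Finset.sum_le_sum (fun k hk => ?_)
      have h4 := (hXY k (Finset.mem_range.1 hk)).2.2.1
      have h5 : ((2:ℝ) ^ l) ≤ ((blk A (X k) (Y k)).card : ℝ) := by exact_mod_cast h4
      linarith
    simp only [Finset.sum_const, Finset.card_range, nsmul_eq_mul] at h3
    calc (K : ℝ) * 2 ^ l / 16 = K * (2 ^ l / 16) := by ring
      _ ≤ _ := h3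
  obtain ⟨θ', hθ'⟩ := exists_multiple hN0 (by positivity) (hS.trans hθ)
  refine ⟨θ', ?_⟩
  have hK8 : (K : ℝ) / 8000 ≤ (κ * fA A θ').re := by
    refine le_trans (le_of_eq ?_) hθ'
    rw [hN]; push_cast
    field_simp
    norm_num
  have hLr : (2:ℝ) ≤ L := by exact_mod_cast hL2
  have hD' : (dyadicCount A : ℝ) ≤ (44 + 4 * (L:ℝ)) * (L * (2 * (16 * (8 + L) * L) + 4)) * K := by
    exact_mod_cast hD
  have hre : 0 ≤ (κ * fA A θ').re := le_trans (by positivity) hK8
  have hbd : (44 + 4 * (L:ℝ)) * (L * (2 * (16 * (8 + L) * L) + 4)) ≤ 4186 * (L:ℝ) ^ 4 := by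
    have e1 : 44 + 4 * (L:ℝ) ≤ 26 * L := by linarith
    have e2 : (L:ℝ) * (2 * (16 * (8 + L) * L) + 4) ≤ 161 * (L:ℝ) ^ 3 := by
      have : (2 * (16 * (8 + (L:ℝ)) * L) + 4) ≤ 161 * (L:ℝ) ^ 2 := by nlinarith
      calc (L:ℝ) * (2 * (16 * (8 + L) * L) + 4) ≤ L * (161 * (L:ℝ) ^ 2) :=
            mul_le_mul_of_nonneg_left this (by linarith)
        _ = _ := by ring
    calc (44 + 4 * (L:ℝ)) * (L * (2 * (16 * (8 + L) * L) + 4)) ≤ (26 * L) * (161 * (L:ℝ) ^ 3) :=
          mul_le_mul e1 e2 (by positivity) (by positivity)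
      _ = _ := by ring
  calc (dyadicCount A : ℝ) ≤ (44 + 4 * (L:ℝ)) * (L * (2 * (16 * (8 + L) * L) + 4)) * K := hD'
    _ ≤ 4186 * (L:ℝ) ^ 4 * K := mul_le_mul_of_nonneg_right hbd (by positivity)
    _ = 33488000 * (L:ℝ) ^ 4 * (K / 8000) := by ring
    _ ≤ _ := mul_le_mul_of_nonneg_left hK8 (by positivity)

lemma main_log {A : Finset ℕ} (hA : ∀ a ∈ A, 0 < a) (hn : 2 ≤ A.card) {κ : ℂ} (hκ : ‖κ‖ = 1) :
    ∃ θ : ℝ, (dyadicCount A : ℝ) ≤ 3000000000 * (Real.log A.card) ^ 4 * (κ * fA A θ).re := by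
  obtain ⟨θ, hθ⟩ := main_L hA hn hκ rfl
  refine ⟨θ, hθ.trans ?_⟩
  set L : ℕ := Nat.log 2 A.card + 1 with hL
  have hn' : (2:ℝ) ≤ A.card := by exact_mod_cast hn
  have hlog2 : (0.69 : ℝ) ≤ Real.log 2 := by have := Real.log_two_gt_d9; linarith
  have hlogn : Real.log 2 ≤ Real.log A.card := Real.log_le_log (by norm_num) hn'
  have h1 : ((Nat.log 2 A.card : ℕ) : ℝ) * Real.log 2 ≤ Real.log A.card := by
    rw [← Real.log_pow]
    apply Real.log_le_log (by positivity)
    exact_mod_cast Nat.pow_log_le_self 2 (by omega)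
  have h2 : (L : ℝ) ≤ 3 * Real.log A.card := by
    have h3 : (L : ℝ) = (Nat.log 2 A.card : ℝ) + 1 := by rw [hL]; push_cast; ring
    rw [h3]
    have h4 : (0:ℝ) ≤ (Nat.log 2 A.card : ℝ) := by positivity
    nlinarith
  have hre : 0 ≤ (κ * fA A θ).re := by
    by_contra hcon
    push Not at hcon
    have hLpos : (0:ℝ) < L := by rw [hL]; positivity
    have : 33488000 * (L : ℝ) ^ 4 * (κ * fA A θ).re < 0 := by
      apply mul_neg_of_pos_of_neg (by positivity) hcon
    have h5 : (0:ℝ) ≤ dyadicCount A := by positivity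
    linarith
  apply mul_le_mul_of_nonneg_right _ hre
  have h6 : (L : ℝ) ^ 4 ≤ (3 * Real.log A.card) ^ 4 := pow_le_pow_left₀ (by positivity) h2 4
  have h7 : (0:ℝ) ≤ (Real.log A.card) ^ 4 := by positivity
  calc 33488000 * (L : ℝ) ^ 4 ≤ 33488000 * (3 * Real.log A.card) ^ 4 := by linarith
    _ = 2712528000 * (Real.log A.card) ^ 4 := by ring
    _ ≤ _ := by linarith

lemma fA_re (A : Finset ℕ) (θ : ℝ) : (fA A θ).re = ∑ a ∈ A, Real.cos ((a : ℝ) * θ) := by
  unfold fA chr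
  rw [Complex.re_sum]
  refine Finset.sum_congr rfl (fun a _ => ?_)
  rw [Complex.exp_ofReal_mul_I_re]; norm_num

lemma fA_im (A : Finset ℕ) (θ : ℝ) : (fA A θ).im = ∑ a ∈ A, Real.sin ((a : ℝ) * θ) := by
  unfold fA chr
  rw [Complex.im_sum]
  refine Finset.sum_congr rfl (fun a _ => ?_)
  rw [Complex.exp_ofReal_mul_I_im]; norm_num

/-- sine sums -/
theorem sine_main {A : Finset ℕ} (hA : ∀ a ∈ A, 0 < a) (hn : 2 ≤ A.card) :
    ∃ θ : ℝ, ((A.image (Nat.log 2)).card : ℝ) ≤
      3000000000 * (Real.log A.card) ^ 4 * ∑ a ∈ A, Real.sin ((a : ℝ) * θ) := by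
  obtain ⟨θ, hθ⟩ := main_log hA hn (κ := -I) (by simp)
  refine ⟨θ, ?_⟩
  have h1 : (-I * fA A θ).re = ∑ a ∈ A, Real.sin ((a : ℝ) * θ) := by
    rw [← fA_im]; simp
  rw [h1] at hθ
  exact hθ

/-- cosine sums -/
theorem cosine_main {A : Finset ℕ} (hA : ∀ a ∈ A, 0 < a) (hn : 2 ≤ A.card) :
    ∃ θ : ℝ, ((A.image (Nat.log 2)).card : ℝ) ≤
      3000000000 * (Real.log A.card) ^ 4 * (-∑ a ∈ A, Real.cos ((a : ℝ) * θ)) := by
  obtain ⟨θ, hθ⟩ := main_log hA hn (κ := -1) (by simp)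
  refine ⟨θ, ?_⟩
  have h1 : (-1 * fA A θ).re = -∑ a ∈ A, Real.cos ((a : ℝ) * θ) := by
    rw [← fA_re]; simp
  rw [h1] at hθ
  exact hθ

/-- the elementary bound by the size of a dyadic block -/
theorem sine_block {A : Finset ℕ} (hA : ∀ a ∈ A, 0 < a) {x : ℕ} (hx : 0 < x) :
    ∃ θ : ℝ, ((A.filter (fun a => x ≤ a ∧ a < 2 * x)).card : ℝ) / Real.pi ≤
      ∑ a ∈ A, Real.sin ((a : ℝ) * θ) := by
  have hx' : (0:ℝ) < x := by exact_mod_cast hx
  set β : ℝ := Real.pi / (2 * x) with hβ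
  have hβ0 : 0 < β := by positivity
  by_contra hcon
  push Not at hcon
  set s : ℝ := ((A.filter (fun a => x ≤ a ∧ a < 2 * x)).card : ℝ) / Real.pi with hs
  have hc : Continuous (fun θ : ℝ => ∑ a ∈ A, Real.sin ((a : ℝ) * θ)) :=
    continuous_finsetSum _ (fun a _ => Real.continuous_sin.comp (continuous_const.mul continuous_id))
  have h1 : ∫ θ in (0:ℝ)..β, ∑ a ∈ A, Real.sin ((a : ℝ) * θ) < s * β := by
    have h2 : ∫ θ in (0:ℝ)..β, ∑ a ∈ A, Real.sin ((a : ℝ) * θ) < ∫ θ in (0:ℝ)..β, s := by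
      apply intervalIntegral.integral_lt_integral_of_continuousOn_of_le_of_exists_lt hβ0
        hc.continuousOn continuousOn_const
      · intro θ _; exact (hcon θ).le
      · exact ⟨0, ⟨le_rfl, hβ0.le⟩, hcon 0⟩
    refine h2.trans_le (le_of_eq ?_)
    simp; ring
  have h3 : ∫ θ in (0:ℝ)..β, ∑ a ∈ A, Real.sin ((a : ℝ) * θ) =
      ∑ a ∈ A, (1 - Real.cos ((a : ℝ) * β)) / a := by
    rw [intervalIntegral.integral_finsetSum]
    · refine Finset.sum_congr rfl (fun a ha => ?_)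
      have ha' : (a : ℝ) ≠ 0 := by exact_mod_cast (hA a ha).ne'
      rw [intervalIntegral.integral_comp_mul_left (fun x => Real.sin x) ha', integral_sin]
      simp; ring
    · intro a _
      exact (Real.continuous_sin.comp (continuous_const.mul continuous_id)).intervalIntegrable _ _
  have h4 : s * β ≤ ∑ a ∈ A, (1 - Real.cos ((a : ℝ) * β)) / a := by
    have h5 : ∑ a ∈ A.filter (fun a => x ≤ a ∧ a < 2 * x), (1 / (2 * x : ℝ)) ≤
        ∑ a ∈ A, (1 - Real.cos ((a : ℝ) * β)) / a := by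
      refine le_trans ?_ (Finset.sum_le_sum_of_subset_of_nonneg
        (Finset.filter_subset (fun a => x ≤ a ∧ a < 2 * x) A) ?_)
      · refine Finset.sum_le_sum (fun a ha => ?_)
        rw [Finset.mem_filter] at ha
        obtain ⟨ha, hxa, hax⟩ := ha
        have ha0 : (0:ℝ) < a := by exact_mod_cast hA a ha
        have e1 : (x:ℝ) ≤ a := by exact_mod_cast hxa
        have e2 : (a:ℝ) ≤ 2 * x := by exact_mod_cast hax.le
        have e3 : Real.cos ((a : ℝ) * β) ≤ 0 := by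
          apply Real.cos_nonpos_of_pi_div_two_le_of_le
          · rw [hβ, ← mul_div_assoc, le_div_iff₀ (by positivity)]
            nlinarith [Real.pi_pos]
          · rw [hβ, ← mul_div_assoc, div_le_iff₀ (by positivity)]
            nlinarith [Real.pi_pos]
        rw [div_le_div_iff₀ (by positivity) ha0]
        nlinarith
      · intro a ha _
        have ha0 : (0:ℝ) < a := by exact_mod_cast hA a ha
        have := Real.cos_le_one ((a : ℝ) * β)
        exact div_nonneg (by linarith) ha0.le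
    refine le_trans (le_of_eq ?_) h5
    rw [hs, hβ]
    simp
    field_simp
  rw [h3] at h1
  linarith

end Pool.Agent.H421Bohr
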